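import Mathlib

set_option autoImplicit false

/-!
# Derivations (crossed homomorphisms) : transfer, inner change, kernels, counting

General lemmas, no project definitions.
-/

namespace Pool.MP_b7b920_al.H19

open scoped BigOperators

section Transfer

variable {Γ M : Type*} [Group Γ] [AddCommGroup M] [DistribMulAction Γ M]

/-- A derivation (crossed homomorphism). -/
def IsDer (k : Γ → M) : Prop := ∀ g h, k (g * h) = k g + g • k h

theorem IsDer.one {k : Γ → M} (hk : IsDer k) : k 1 = 0 := by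
  have := hk 1 1
  simp only [mul_one, one_smul] at this
  exact left_eq_add.mp this

theorem IsDer.inv {k : Γ → M} (hk : IsDer k) (g : Γ) : k g⁻¹ = - (g⁻¹ • k g) := by
  have := hk g⁻¹ g
  rw [inv_mul_cancel, hk.one] at this
  exact eq_neg_of_add_eq_zero_left this.symm

theorem IsDer.inv_mul {k : Γ → M} (hk : IsDer k) (g h : Γ) :
    k (g⁻¹ * h) = g⁻¹ • (k h - k g) := by
  rw [hk, hk.inv, smul_sub]; abel

theorem IsDer.conj {k : Γ → M} (hk : IsDer k) (g h : Γ) :
    k (g * h * g⁻¹) = k g + g • k h - (g * h * g⁻¹) • k g := by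
  rw [hk, hk, hk.inv, smul_neg, smul_smul]; abel

/-- `k([z,g]) = (z-1) k(g) + ...` : formula for commutators. -/
theorem IsDer.commutator {k : Γ → M} (hk : IsDer k) (z g : Γ) :
    k (z * g * z⁻¹ * g⁻¹) = k z + z • k g - (z * g * z⁻¹) • k z - (z * g * z⁻¹ * g⁻¹) • k g := by
  rw [hk (z * g * z⁻¹) g⁻¹, hk.conj, hk.inv, smul_neg, smul_smul]; abel

theorem IsDer.smul_nat {k : Γ → M} (hk : IsDer k) (n : ℕ) : IsDer (fun g => n • k g) := by
  intro g h
  simp only [hk g h, nsmul_add]
  congr 1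
  exact (map_nsmul (DistribSMul.toAddMonoidHom M g) n (k h)).symm

theorem IsDer.smul_int {k : Γ → M} (hk : IsDer k) (n : ℤ) : IsDer (fun g => n • k g) := by
  intro g h
  simp only [hk g h, zsmul_add]
  congr 1
  exact (map_zsmul (DistribSMul.toAddMonoidHom M g) n (k h)).symm

theorem IsDer.add {k k' : Γ → M} (hk : IsDer k) (hk' : IsDer k') :
    IsDer (fun g => k g + k' g) := by
  intro g h; simp only [hk g h, hk' g h, smul_add]; abel

theorem IsDer.sub {k k' : Γ → M} (hk : IsDer k) (hk' : IsDer k') :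
    IsDer (fun g => k g - k' g) := by
  intro g h; simp only [hk g h, hk' g h, smul_sub]; abel

/-- inner derivations -/
theorem isDer_inner (v : M) : IsDer (fun g : Γ => g • v - v) := by
  intro g h; simp only [mul_smul, smul_sub]; abel

/-- the kernel (zero set) of a derivation is a subgroup -/
def derKer (k : Γ → M) (hk : IsDer k) : Subgroup Γ where
  carrier := {g | k g = 0}
  one_mem' := hk.one
  mul_mem' := by
    intro a b ha hb
    simp only [Set.mem_ofPred_eq] at *
    rw [hk, ha, hb, smul_zero, add_zero]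
  inv_mem' := by
    intro a ha
    simp only [Set.mem_ofPred_eq] at *
    rw [hk.inv, ha, smul_zero, neg_zero]

@[simp] theorem mem_derKer {k : Γ → M} (hk : IsDer k) {g : Γ} : g ∈ derKer k hk ↔ k g = 0 :=
  Iff.rfl

theorem IsDer.eq_iff {k : Γ → M} (hk : IsDer k) {g h : Γ} :
    k g = k h ↔ g⁻¹ * h ∈ derKer k hk := by
  rw [mem_derKer, hk.inv_mul, smul_eq_zero_iff_eq, sub_eq_zero, eq_comm]

/-- two derivations agreeing on a generating set agree -/
theorem IsDer.ext_closure {k k' : Γ → M} (hk : IsDer k) (hk' : IsDer k') {S : Set Γ}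
    (hS : Subgroup.closure S = ⊤) (h : ∀ s ∈ S, k s = k' s) : k = k' := by
  have h1 : Subgroup.closure S ≤ derKer _ (hk.sub hk') := by
    rw [Subgroup.closure_le]
    intro s hs
    show k s - k' s = 0
    rw [h s hs, sub_self]
  funext g
  have : g ∈ derKer _ (hk.sub hk') := h1 (hS ▸ Subgroup.mem_top g)
  exact sub_eq_zero.mp this

/-- If `k` is injective on the subgroup `N` (i.e. nonzero off `1`), then `ker k` meets `N`
trivially. -/
theorem derKer_inf_eq_bot {k : Γ → M} (hk : IsDer k) (N : Subgroup Γ)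
    (hN : ∀ n ∈ N, k n = 0 → n = 1) : derKer k hk ⊓ N = ⊥ := by
  rw [eq_bot_iff]
  intro g hg
  rw [Subgroup.mem_inf] at hg
  exact Subgroup.mem_bot.mpr (hN g hg.2 hg.1)

/-- A subgroup meeting a finite-index subgroup trivially is finite. -/
theorem finite_of_inf_eq_bot (E N : Subgroup Γ) [N.FiniteIndex] (h : E ⊓ N = ⊥) : Finite E := by
  have hinj : Function.Injective (fun e : E => ((e : Γ) : Γ ⧸ N)) := by
    intro a b hab
    have h1 : (a : Γ)⁻¹ * b ∈ N := QuotientGroup.eq.mp hab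
    have h2 : (a : Γ)⁻¹ * b ∈ E := E.mul_mem (E.inv_mem a.2) b.2
    have h3 : (a : Γ)⁻¹ * b ∈ E ⊓ N := ⟨h2, h1⟩
    rw [h, Subgroup.mem_bot] at h3
    exact Subtype.ext (inv_mul_eq_one.mp h3)
  exact Finite.of_injective _ hinj

theorem finite_derKer {k : Γ → M} (hk : IsDer k) (N : Subgroup Γ) [N.FiniteIndex]
    (hN : ∀ n ∈ N, k n = 0 → n = 1) : Finite (derKer k hk) :=
  finite_of_inf_eq_bot _ N (derKer_inf_eq_bot hk N hN)

/-- **Transfer derivation.**  Let `N` be normal of finite index in `Γ` and `k0 : N → M` an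
equivariant homomorphism.  Then `index • k0` extends to a derivation on `Γ`. -/
theorem exists_transfer (N : Subgroup Γ) [hN : N.Normal] [N.FiniteIndex] (k0 : N → M)
    (hadd : ∀ a b, k0 (a * b) = k0 a + k0 b)
    (hequiv : ∀ (g : Γ) (n : N), k0 ⟨g * n * g⁻¹, hN.conj_mem n n.2 g⟩ = g • k0 n) :
    ∃ k : Γ → M, IsDer k ∧ ∀ n : N, k n = N.index • k0 n := by
  classical
  have : Fintype (Γ ⧸ N) := Fintype.ofFinite _
  set σ : Γ ⧸ N → Γ := Quotient.out with hσ
  have hσ' : ∀ c : Γ ⧸ N, ((σ c : Γ) : Γ ⧸ N) = c := fun c => QuotientGroup.out_eq' c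
  have hmem : ∀ (g : Γ) (c : Γ ⧸ N), g * σ c * (σ ((g : Γ ⧸ N) * c))⁻¹ ∈ N := by
    intro g c
    rw [← QuotientGroup.eq_one_iff]
    simp only [QuotientGroup.mk_mul, QuotientGroup.mk_inv, hσ']
    group
  have hcongr : ∀ a b : N, (a : Γ) = b → k0 a = k0 b := fun a b h => by
    rw [Subtype.ext h]
  refine ⟨fun g => ∑ c, k0 ⟨_, hmem g c⟩, ?_, ?_⟩
  · intro g h
    simp only
    rw [Finset.smul_sum]
    have h1 : ∑ c, k0 ⟨_, hmem g c⟩ = ∑ c, k0 ⟨_, hmem g ((h : Γ ⧸ N) * c)⟩ :=
      (Equiv.sum_comp (Equiv.mulLeft (h : Γ ⧸ N)) (fun c => k0 ⟨_, hmem g c⟩)).symm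
    rw [h1, ← Finset.sum_add_distrib]
    refine Finset.sum_congr rfl fun c _ => ?_
    rw [← hequiv g ⟨_, hmem h c⟩, add_comm, ← hadd]
    apply hcongr
    simp only [Subgroup.coe_mul, QuotientGroup.mk_mul, mul_assoc]
    group
  · intro n
    simp only
    have h1 : ∀ c : Γ ⧸ N, k0 ⟨_, hmem n c⟩ = k0 n := by
      intro c
      apply hcongr
      have : ((n : Γ) : Γ ⧸ N) = 1 := (QuotientGroup.eq_one_iff _).mpr n.2
      simp only [this, one_mul]
      group
    rw [Finset.sum_congr rfl fun c _ => h1 c, Finset.sum_const, Finset.card_univ,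
      Subgroup.index, Nat.card_eq_fintype_card]

end Transfer

end Pool.MP_b7b920_al.H19
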