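import Mathlib

set_option autoImplicit false

/-!
# Counting homomorphisms

General lemmas, no project definitions.
-/

namespace Pool.MP_b7b920_al.H19

section Index

variable {Γ : Type*} [Group Γ]

/-- A homomorphism to a group of prime order `p`, trivial on a subgroup whose index is prime
to `p`, is trivial. -/
theorem hom_eq_one_of_coprime_index {A : Type*} [Group A] {p : ℕ} (hp : p.Prime)
    (hA : Nat.card A = p) (Δ : Subgroup Γ) (hΔ : ¬ p ∣ Δ.index) (f : Γ →* A)
    (hf : ∀ d ∈ Δ, f d = 1) : f = 1 := by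
  have h1 : Δ ≤ f.ker := fun d hd => MonoidHom.mem_ker.mpr (hf d hd)
  have h2 : f.ker.index ∣ Δ.index := Subgroup.index_dvd_of_le h1
  have h3 : f.ker.index ∣ p := by
    rw [Subgroup.index_ker, ← hA]; exact Subgroup.card_subgroup_dvd_card _
  rcases (Nat.dvd_prime hp).mp h3 with h4 | h4
  · have h5 : f.ker = ⊤ := Subgroup.index_eq_one.mp h4
    ext g
    have : g ∈ f.ker := h5 ▸ Subgroup.mem_top g
    simpa using this
  · exact absurd (h4 ▸ h2) hΔ

/-- restriction to a subgroup of index prime to `p` is injective on homs killing `E`;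
counting version. `Hom_E(Γ,A)` injects into `Hom_{E ∩ Δ}(Δ,A)`. -/
theorem card_hom_le_of_coprime_index {A : Type*} [CommGroup A] {p : ℕ} (hp : p.Prime)
    (hA : Nat.card A = p) (Δ : Subgroup Γ) (hΔ : ¬ p ∣ Δ.index) (E : Set Γ)
    [Finite (Δ →* A)] :
    Nat.card {f : Γ →* A // ∀ e ∈ E, f e = 1} ≤
      Nat.card {f : Δ →* A // ∀ e : Δ, (e : Γ) ∈ E → f e = 1} := by
  let F : {f : Γ →* A // ∀ e ∈ E, f e = 1} → {f : Δ →* A // ∀ e : Δ, (e : Γ) ∈ E → f e = 1} :=
    fun f => ⟨f.1.comp Δ.subtype, fun e he => f.2 _ he⟩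
  apply Nat.card_le_card_of_injective F
  rintro ⟨f, hf⟩ ⟨g, hg⟩ h
  have h1 : f.comp Δ.subtype = g.comp Δ.subtype := congrArg Subtype.val h
  have h2 : f / g = 1 := by
    apply hom_eq_one_of_coprime_index hp hA Δ hΔ
    intro d hd
    have := DFunLike.congr_fun h1 ⟨d, hd⟩
    simp only [MonoidHom.comp_apply, Subgroup.coe_subtype] at this
    rw [MonoidHom.div_apply, this, div_self']
  exact Subtype.ext (div_eq_one.mp h2)

end Index

section Extension

variable {X : Type*} [Group X]

/-- exactness: a hom trivial on `N` factors through `X ⧸ N`. -/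
theorem card_hom_le_mul {A : Type*} [CommGroup A] (N : Subgroup X) [N.Normal] (E : Set X)
    [Finite (N →* A)] [Finite (X ⧸ N →* A)] :
    Finite (X →* A) ∧
    Nat.card {f : X →* A // ∀ e ∈ E, f e = 1} ≤
      Nat.card {f : N →* A // ∀ e : N, (e : X) ∈ E → f e = 1} *
        Nat.card {f : X ⧸ N →* A // ∀ e ∈ E, f (e : X ⧸ N) = 1} := by
  classical
  -- the subgroups of `X →* A`
  let HX : Subgroup (X →* A) :=
    { carrier := {f | ∀ e ∈ E, f e = 1}
      one_mem' := fun e _ => rfl
      mul_mem' := fun {a b} ha hb e he => by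
        rw [MonoidHom.mul_apply, ha e he, hb e he, one_mul]
      inv_mem' := fun {a} ha e he => by rw [MonoidHom.inv_apply, ha e he, inv_one] }
  let res : (X →* A) →* (N →* A) :=
    { toFun := fun f => f.comp N.subtype
      map_one' := rfl
      map_mul' := fun f g => rfl }
  -- kernel of `res` injects into Hom(X/N, A)
  have hlift : ∀ f : X →* A, res f = 1 → N ≤ f.ker := by
    intro f hf n hn
    have := DFunLike.congr_fun hf ⟨n, hn⟩
    exact MonoidHom.mem_ker.mpr this
  have hfinker : Finite res.ker := by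
    let F : res.ker → (X ⧸ N →* A) := fun f => QuotientGroup.lift N f.1 (hlift f.1 f.2)
    apply Finite.of_injective F
    intro f g h
    apply Subtype.ext
    ext x
    have := DFunLike.congr_fun h (x : X ⧸ N)
    simpa [F] using this
  have hfin : Finite (X →* A) := by
    have h1 : Finite res.range := inferInstance
    exact (res.finite_iff_finite_ker_range).mpr ⟨hfinker, h1⟩
  refine ⟨hfin, ?_⟩
  let res' : HX →* (N →* A) := res.comp HX.subtype
  have h1 : Nat.card {f : X →* A // ∀ e ∈ E, f e = 1} = Nat.card HX := rfl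
  rw [h1]
  have h2 : Nat.card HX = Nat.card res'.ker * Nat.card res'.range := by
    rw [← Subgroup.index_ker, mul_comm, Subgroup.index_mul_card]
  rw [h2, mul_comm]
  have hfQ : Finite {f : N →* A // ∀ e : N, (e : X) ∈ E → f e = 1} := inferInstance
  have hfR : Finite {f : X ⧸ N →* A // ∀ e ∈ E, f (e : X ⧸ N) = 1} := inferInstance
  apply Nat.mul_le_mul
  · let F : res'.range → {f : N →* A // ∀ e : N, (e : X) ∈ E → f e = 1} := fun f =>
      ⟨f.1, by
        obtain ⟨g, hg⟩ := f.2
        intro e he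
        rw [← hg]
        exact g.2 _ he⟩
    apply Nat.card_le_card_of_injective F
    intro f g h
    have h' := congrArg Subtype.val h
    exact Subtype.ext h'
  · let F : res'.ker → {f : X ⧸ N →* A // ∀ e ∈ E, f (e : X ⧸ N) = 1} := fun f =>
      ⟨QuotientGroup.lift N f.1.1 (hlift f.1.1 f.2), fun e he => f.1.2 e he⟩
    apply Nat.card_le_card_of_injective F
    intro f g h
    apply Subtype.ext
    apply Subtype.ext
    ext x
    have := DFunLike.congr_fun (congrArg Subtype.val h) (x : X ⧸ N)
    simpa [F] using this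

end Extension

section Free

/-- `|Hom(ℤ^s, A)| = |A|^s`. -/
theorem card_addHom_free {L A : Type*} [AddCommGroup L] [Module.Free ℤ L] [Module.Finite ℤ L]
    [AddCommGroup A] [Finite A] :
    Finite (L →+ A) ∧ Nat.card (L →+ A) = Nat.card A ^ Module.finrank ℤ L := by
  let b := Module.finBasis ℤ L
  let e1 : (L →+ A) ≃ (L →ₗ[ℤ] A) := (addMonoidHomLequivInt ℤ).toEquiv
  let e2 : (Fin (Module.finrank ℤ L) → A) ≃ (L →ₗ[ℤ] A) := (b.constr ℤ).toEquiv
  refine ⟨Finite.of_equiv _ (e2.trans e1.symm), ?_⟩
  rw [Nat.card_congr (e1.trans e2.symm), Nat.card_fun, Nat.card_fin]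

/-- multiplicative version -/
theorem card_hom_free {L A : Type*} [AddCommGroup L] [Module.Free ℤ L] [Module.Finite ℤ L]
    [CommGroup A] [Finite A] :
    Finite (Multiplicative L →* A) ∧
      Nat.card (Multiplicative L →* A) = Nat.card A ^ Module.finrank ℤ L := by
  obtain ⟨h1, h2⟩ := card_addHom_free (L := L) (A := Additive A)
  let e : (L →+ Additive A) ≃ (Multiplicative L →* A) := AddMonoidHom.toMultiplicativeLeft
  exact ⟨Finite.of_equiv _ e, by rw [← Nat.card_congr e, h2]; rfl⟩

end Free

end Pool.MP_b7b920_al.H19
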