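import Mathlib
import Pool.Agent.Lib.MP_b7b920_al_h19.Deriv
import Pool.Agent.Lib.MP_b7b920_al_h19.HomCount
import Pool.Agent.Lib.MP_b7b920_al_helper12.RGL
import Pool.Agent.Lib.MP_b7b920_al_CT.Defs

set_option autoImplicit false

/-!
# Step 3 of the crystallographic theorem: counting derivations into chief factors

General lemmas; no project definitions except `Der` and `ChiefFactor` of helper12.
-/

namespace Pool.MP_b7b920_al.H19

open Pool.B7h12 Subgroup

section HomK

variable {Γ : Type*} [Group Γ]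

/-- homomorphisms of the subgroup `X` to `Z/l` killing the set `S` -/
def HomK (X : Subgroup Γ) (l : ℕ) (S : Set Γ) : Type _ :=
  {f : X →* Multiplicative (ZMod l) // ∀ e : X, (e : Γ) ∈ S → f e = 1}

theorem card_mult_zmod (l : ℕ) : Nat.card (Multiplicative (ZMod l)) = l := by
  rw [Nat.card_congr Multiplicative.toAdd, Nat.card_zmod]

/-- restriction to a subgroup of relative index prime to `l` -/
theorem homK_restrict {l : ℕ} (hl : l.Prime) {X K : Subgroup Γ} (hXK : X ≤ K)
    (hidx : ¬ l ∣ X.relIndex K) (S : Set Γ) [Finite (HomK X l S)] :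
    Finite (HomK K l S) ∧ Nat.card (HomK K l S) ≤ Nat.card (HomK X l S) := by
  let F : HomK K l S → HomK X l S := fun f =>
    ⟨f.1.comp (Subgroup.inclusion hXK), fun e he => f.2 ⟨e, hXK e.2⟩ he⟩
  have hF : Function.Injective F := by
    rintro ⟨f, hf⟩ ⟨g, hg⟩ h
    have h1 : f.comp (Subgroup.inclusion hXK) = g.comp (Subgroup.inclusion hXK) :=
      congrArg Subtype.val h
    have h2 : f / g = 1 := by
      apply hom_eq_one_of_coprime_index hl (card_mult_zmod l) (X.subgroupOf K) hidx
      intro d hd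
      have h3 : (d : Γ) ∈ X := hd
      have := DFunLike.congr_fun h1 ⟨d, h3⟩
      have h4 : f d = g d := this
      rw [MonoidHom.div_apply, h4, div_self']
    exact Subtype.ext (div_eq_one.mp h2)
  exact ⟨Finite.of_injective F hF, Nat.card_le_card_of_injective F hF⟩

/-- killing more gives less -/
theorem homK_mono {l : ℕ} {X : Subgroup Γ} {S S' : Set Γ}
    (h : ∀ f : X →* Multiplicative (ZMod l), (∀ e : X, (e : Γ) ∈ S' → f e = 1) →
      ∀ e : X, (e : Γ) ∈ S → f e = 1) [Finite (HomK X l S)] :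
    Finite (HomK X l S') ∧ Nat.card (HomK X l S') ≤ Nat.card (HomK X l S) := by
  let F : HomK X l S' → HomK X l S := fun f => ⟨f.1, h f.1 f.2⟩
  have hF : Function.Injective F := by
    intro f g hfg
    have h1 : (F f).1 = (F g).1 := congrArg Subtype.val hfg
    exact Subtype.ext h1
  exact ⟨Finite.of_injective F hF, Nat.card_le_card_of_injective F hF⟩

/-- Sylow subgroups of `K` relative to a normal subgroup `T` of finite index -/
theorem exists_relSylow (T K : Subgroup Γ) [T.Normal] (hT : T.index ≠ 0) (hTK : T ≤ K)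
    {l : ℕ} (hl : l.Prime) :
    ∃ X : Subgroup Γ, T ≤ X ∧ X ≤ K ∧ (∃ k, T.relIndex X = l ^ k) ∧ ¬ l ∣ X.relIndex K := by
  classical
  have : Fact l.Prime := ⟨hl⟩
  have hfi : T.FiniteIndex := ⟨hT⟩
  let T' : Subgroup K := T.subgroupOf K
  have hT'n : T'.Normal := inferInstance
  have hT'fi : T'.FiniteIndex := ⟨by
    show T.relIndex K ≠ 0
    intro h0
    have := Subgroup.relIndex_mul_index hTK
    rw [h0, zero_mul] at this
    exact hT this.symm⟩
  have hfin : Finite (K ⧸ T') := inferInstance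
  obtain ⟨P⟩ : Nonempty (Sylow l (K ⧸ T')) := inferInstance
  let X' : Subgroup K := (P : Subgroup (K ⧸ T')).comap (QuotientGroup.mk' T')
  have hTX' : T' ≤ X' := by
    intro t ht
    show QuotientGroup.mk' T' t ∈ (P : Subgroup (K ⧸ T'))
    have : QuotientGroup.mk' T' t = 1 := (QuotientGroup.eq_one_iff t).mpr ht
    rw [this]; exact one_mem _
  have hTmap : T'.map K.subtype = T := by
    rw [Subgroup.subgroupOf_map_subtype]; exact inf_eq_left.mpr hTK
  refine ⟨X'.map K.subtype, ?_, Subgroup.map_subtype_le _, ?_, ?_⟩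
  · conv_lhs => rw [← hTmap]
    exact Subgroup.map_mono hTX'
  · have h1 : T.relIndex (X'.map K.subtype) = T'.relIndex X' := by
      conv_lhs => rw [← hTmap]
      exact Subgroup.relIndex_map_map_of_injective _ _ K.subtype_injective
    have h2 : T' = (QuotientGroup.mk' T').ker := (QuotientGroup.ker_mk' T').symm
    have h3 : T'.relIndex X' = Nat.card (P : Subgroup (K ⧸ T')) := by
      conv_lhs => rw [h2]
      rw [Subgroup.relIndex_ker]
      congr 1
      rw [Subgroup.map_comap_eq_self_of_surjective (QuotientGroup.mk'_surjective T')]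
    rw [h1, h3]
    exact (IsPGroup.iff_card.mp P.isPGroup')
  · have h1 : (X'.map K.subtype).relIndex K = X'.index := by
      have h2 : (X'.map K.subtype).relIndex ((⊤ : Subgroup K).map K.subtype) =
          X'.relIndex ⊤ :=
        Subgroup.relIndex_map_map_of_injective _ _ K.subtype_injective
      rw [← MonoidHom.range_eq_map, Subgroup.range_subtype, Subgroup.relIndex_top_right] at h2
      exact h2
    have h3 : X'.index = (P : Subgroup (K ⧸ T')).index :=
      Subgroup.index_comap_of_surjective _ (QuotientGroup.mk'_surjective T')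
    rw [h1, h3]
    exact P.not_dvd_index

end HomK

section ModuleLemmas

variable {Γ M : Type*} [Group Γ] [AddCommGroup M] [DistribMulAction Γ M]

/-- A finite simple module is an elementary abelian `l`-group. -/
theorem simple_char [Finite M] [Nontrivial M] (hs : IsSimpleMod Γ M) :
    ∃ l : ℕ, l.Prime ∧ (∀ m : M, l • m = 0) ∧ ∃ k, k ≠ 0 ∧ Nat.card M = l ^ k := by
  classical
  have hM : Nat.card M ≠ 1 := by
    have := Finite.one_lt_card (α := M)
    omega
  let l := (Nat.card M).minFac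
  have hl : l.Prime := Nat.minFac_prime hM
  have : Fact l.Prime := ⟨hl⟩
  let U : AddSubgroup M :=
    { carrier := {m | l • m = 0}
      add_mem' := fun {a b} ha hb => by
        simp only [Set.mem_ofPred_eq] at *
        rw [nsmul_add, ha, hb, add_zero]
      zero_mem' := by simp
      neg_mem' := fun {a} ha => by
        simp only [Set.mem_ofPred_eq] at *
        rw [smul_neg, ha, neg_zero] }
  have hU : ∀ (g : Γ), ∀ m ∈ U, g • m ∈ U := by
    intro g m hm
    show l • (g • m) = 0
    have h1 : g • (l • m) = l • (g • m) := map_nsmul (DistribSMul.toAddMonoidHom M g) l m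
    have h2 : l • m = 0 := hm
    rw [← h1, h2, smul_zero]
  have hall : ∀ m : M, l • m = 0 := by
    rcases hs U hU with h | h
    · exfalso
      obtain ⟨m, hm⟩ := exists_prime_addOrderOf_dvd_card' (G := M) l (Nat.minFac_dvd _)
      have h1 : m ∈ U := by
        show l • m = 0
        rw [← hm]; exact addOrderOf_nsmul_eq_zero m
      rw [h, AddSubgroup.mem_bot] at h1
      rw [h1, addOrderOf_zero] at hm
      exact hl.one_lt.ne hm
    · intro m
      have : m ∈ U := h ▸ AddSubgroup.mem_top m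
      exact this
  refine ⟨l, hl, hall, ?_⟩
  have h1 : IsPGroup l (Multiplicative M) := by
    intro m
    refine ⟨1, ?_⟩
    rw [pow_one]
    exact hall m
  obtain ⟨k, hk⟩ := IsPGroup.iff_card.mp h1
  have hk' : Nat.card M = l ^ k := hk
  refine ⟨k, ?_, hk'⟩
  rintro rfl
  exact hM (by rw [hk', pow_zero])

/-- A simple module with trivial action has prime order. -/
theorem simple_trivial_card [Finite M] [Nontrivial M] (hs : IsSimpleMod Γ M)
    (htriv : ∀ (g : Γ) (m : M), g • m = m) {l : ℕ} (hl : l.Prime) (hlM : ∀ m : M, l • m = 0) :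
    Nat.card M = l := by
  obtain ⟨m, hm⟩ := exists_ne (0 : M)
  have h1 : ∀ (g : Γ), ∀ x ∈ AddSubgroup.zmultiples m, g • x ∈ AddSubgroup.zmultiples m := by
    intro g x hx; rw [htriv]; exact hx
  rcases hs _ h1 with h | h
  · exfalso
    have : m ∈ AddSubgroup.zmultiples m := AddSubgroup.mem_zmultiples m
    rw [h, AddSubgroup.mem_bot] at this
    exact hm this
  · have h2 : Nat.card M = addOrderOf m := by
      rw [← Nat.card_zmultiples, h]
      exact (AddSubgroup.card_top).symm
    have : Fact l.Prime := ⟨hl⟩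
    rw [h2]
    exact addOrderOf_eq_prime (hlM m) hm

/-- In a chief factor above `N₀`, the normal subgroup `T` with `T ^ p ≤ N₀` acts trivially. -/
theorem chief_trivial [Finite M] {N₀ N T : Subgroup Γ} [hTn : T.Normal] {p : ℕ} (hp : p.Prime)
    (hpow : ∀ t ∈ T, t ^ p ∈ N₀) (c : ChiefFactor Γ M N₀ N) :
    ∀ t ∈ T, ∀ m : M, t • m = m := by
  classical
  have := c.nontriv
  have hN1 := c.normal
  obtain ⟨l, hl, hlM, k, hk0, hk⟩ := simple_char (Γ := Γ) (M := M) c.simple
  -- `p (t m - m) = 0`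
  have h1 : ∀ t ∈ T, ∀ m : M, p • (t • m - m) = 0 := by
    intro t ht m
    obtain ⟨n, hn⟩ := c.surj (Multiplicative.ofAdd m)
    have h2 : (t * n * t⁻¹ * (n : Γ)⁻¹) ∈ T := by
      have : t * n * t⁻¹ * (n : Γ)⁻¹ = t * (n * t⁻¹ * (n : Γ)⁻¹) := by group
      rw [this]
      exact mul_mem ht (hTn.conj_mem _ (inv_mem ht) _)
    let x : c.N₁ := ⟨t * n * t⁻¹, hN1.conj_mem _ n.2 t⟩ * n⁻¹
    have h3 : (x : Γ) = t * n * t⁻¹ * (n : Γ)⁻¹ := rfl
    have h4 : c.φ (x ^ p) = 1 := by
      apply c.ker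
      rw [SubmonoidClass.coe_pow, h3]
      exact hpow _ h2
    have h5 : c.φ x = Multiplicative.ofAdd (t • m - m) := by
      show c.φ (⟨t * n * t⁻¹, hN1.conj_mem _ n.2 t⟩ * n⁻¹) = _
      rw [map_mul, c.conj, map_inv, hn, toAdd_ofAdd, ← div_eq_mul_inv, ← ofAdd_sub]
    rw [map_pow, h5, ← ofAdd_nsmul] at h4
    exact h4
  by_cases hlp : l = p
  · subst hlp
    -- `N₀` acts trivially
    have h0 : ∀ t ∈ N₀, ∀ m : M, t • m = m := by
      intro t ht m
      obtain ⟨n, hn⟩ := c.surj (Multiplicative.ofAdd m)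
      have h2 := c.conj t n
      have ht1 : t ∈ c.N₁ := c.le ht
      have h3 : (⟨t * n * t⁻¹, hN1.conj_mem _ n.2 t⟩ : c.N₁) = ⟨t, ht1⟩ * n * ⟨t, ht1⟩⁻¹ := by
        apply Subtype.ext; rfl
      rw [h3, map_mul, map_mul, map_inv, c.ker ⟨t, ht1⟩ ht, one_mul, inv_one, mul_one, hn] at h2
      exact (Multiplicative.ofAdd.injective h2).symm
    let ρ : Γ →* Equiv.Perm M := MulAction.toPermHom Γ M
    let Q : Subgroup (Equiv.Perm M) := T.map ρ
    have hQ : IsPGroup l Q := by
      rintro ⟨q, t, ht, rfl⟩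
      refine ⟨1, ?_⟩
      apply Subtype.ext
      show (ρ t) ^ (l ^ 1) = 1
      rw [pow_one, ← map_pow]
      ext m
      exact h0 _ (hpow t ht) m
    have : Fact l.Prime := ⟨hl⟩
    have hdvd : l ∣ Nat.card M := by rw [hk]; exact dvd_pow_self l hk0
    have h0fix : (0 : M) ∈ MulAction.fixedPoints Q M := by
      rintro ⟨q, t, ht, rfl⟩
      show t • (0 : M) = 0
      exact smul_zero t
    obtain ⟨m, hm, hne⟩ := hQ.exists_fixed_point_of_prime_dvd_card_of_fixed_point M hdvd h0fix
    let U : AddSubgroup M :=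
      { carrier := {m | ∀ t ∈ T, t • m = m}
        add_mem' := fun {a b} ha hb t ht => by rw [smul_add, ha t ht, hb t ht]
        zero_mem' := fun t _ => smul_zero t
        neg_mem' := fun {a} ha t ht => by rw [smul_neg, ha t ht] }
    have hU : ∀ (g : Γ), ∀ m ∈ U, g • m ∈ U := by
      intro g m hm t ht
      have h2 : g⁻¹ * t * g ∈ T := by
        have := hTn.conj_mem t ht g⁻¹
        rwa [inv_inv] at this
      have h3 : (g⁻¹ * t * g) • m = m := hm _ h2
      have h4 : t • g • m = g • ((g⁻¹ * t * g) • m) := by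
        simp only [smul_smul]; congr 1; group
      rw [h4, h3]
    rcases c.simple U hU with h | h
    · exfalso
      have : m ∈ U := by
        intro t ht
        exact hm ⟨ρ t, t, ht, rfl⟩
      rw [h, AddSubgroup.mem_bot] at this
      exact hne this.symm
    · intro t ht m
      have : m ∈ U := h ▸ AddSubgroup.mem_top m
      exact this t ht
  · intro t ht m
    have h2 := h1 t ht m
    have h3 := hlM (t • m - m)
    have hco : Nat.Coprime p l := (Nat.coprime_primes hp hl).mpr (Ne.symm hlp)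
    have h4 : addOrderOf (t • m - m) ∣ Nat.gcd p l :=
      Nat.dvd_gcd (addOrderOf_dvd_of_nsmul_eq_zero h2) (addOrderOf_dvd_of_nsmul_eq_zero h3)
    rw [hco, Nat.dvd_one, AddMonoid.addOrderOf_eq_one_iff] at h4
    exact sub_eq_zero.mp h4

/-- in a nontrivial simple module of characteristic `2` there are at least `4` elements -/
theorem four_le_card [Finite M] {l : ℕ} (hl2 : l = 2) {k : ℕ} (hk : Nat.card M = l ^ k)
    (hnt : ∃ (g : Γ) (m : M), g • m ≠ m) : 4 ≤ Nat.card M := by
  subst hl2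
  obtain ⟨g, m, hgm⟩ := hnt
  have hm0 : m ≠ 0 := by
    rintro rfl
    exact hgm (smul_zero g)
  have hgm0 : g • m ≠ 0 := by
    intro h
    exact hm0 ((smul_eq_zero_iff_eq g).mp h)
  have h3 : 3 ≤ Nat.card M := by
    let f : Fin 3 → M := ![0, m, g • m]
    have hf : Function.Injective f := by
      intro i j hij
      fin_cases i <;> fin_cases j <;> simp [f] at hij ⊢ <;>
        first
          | exact absurd hij.symm hm0
          | exact absurd hij hm0
          | exact absurd hij.symm hgm0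
          | exact absurd hij hgm0
          | exact absurd hij hgm
          | exact absurd hij.symm hgm
    have := Nat.card_le_card_of_injective f hf
    simpa using this
  rcases k with _ | _ | k
  · simp at hk; omega
  · simp at hk; omega
  · rw [hk, pow_succ, pow_succ]
    have : 1 ≤ 2 ^ k := Nat.one_le_two_pow
    omega

end ModuleLemmas

section Counts

variable {Γ : Type*} [Group Γ]

/-- consumer form of Lemma D for a normal subgroup `T` of `Γ` -/
def LDT (T : Subgroup Γ) (r : ℕ) : Prop :=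
  ∀ (l : ℕ) (_ : l.Prime) (X : Subgroup Γ), T ≤ X → (∃ k, T.relIndex X = l ^ k) →
    Finite (HomK X l (T : Set Γ)) ∧ Nat.card (HomK X l (T : Set Γ)) ^ (l - 1) ≤ l ^ r

theorem pow_eq_one_mult_zmod (l : ℕ) (x : Multiplicative (ZMod l)) : x ^ l = 1 := by
  have : l • Multiplicative.toAdd x = 0 := by
    rw [nsmul_eq_mul, CharP.cast_eq_zero, zero_mul]
  exact this

theorem homK_ne {T K : Subgroup Γ} [T.Normal] (hTi : T.index ≠ 0) (hTK : T ≤ K) {r : ℕ}
    (hLD : LDT T r) {l p : ℕ} (hl : l.Prime) (hp : p.Prime) (hlp : l ≠ p) {S : Set Γ}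
    (hS : ∀ t ∈ T, t ^ p ∈ S) :
    Finite (HomK K l S) ∧ Nat.card (HomK K l S) ^ (l - 1) ≤ l ^ r := by
  obtain ⟨X, hTX, hXK, hk, hidx⟩ := exists_relSylow T K hTi hTK hl
  obtain ⟨hfin, hle⟩ := hLD l hl X hTX hk
  obtain ⟨hfin2, hle2⟩ := homK_restrict hl hXK hidx (T : Set Γ)
  have h3 : ∀ f : K →* Multiplicative (ZMod l), (∀ e : K, (e : Γ) ∈ S → f e = 1) →
      ∀ e : K, (e : Γ) ∈ (T : Set Γ) → f e = 1 := by
    intro f hf e he
    have h4 : f (e ^ p) = 1 := hf (e ^ p) (by
      rw [SubmonoidClass.coe_pow]; exact hS _ he)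
    rw [map_pow] at h4
    have h5 := pow_eq_one_mult_zmod l (f e)
    have hco : Nat.Coprime p l := (Nat.coprime_primes hp hl).mpr (Ne.symm hlp)
    have h6 : orderOf (f e) ∣ Nat.gcd p l :=
      Nat.dvd_gcd (orderOf_dvd_of_pow_eq_one h4) (orderOf_dvd_of_pow_eq_one h5)
    rw [hco, Nat.dvd_one, orderOf_eq_one_iff] at h6
    exact h6
  obtain ⟨hfin4, hle4⟩ := homK_mono h3
  exact ⟨hfin4, (Nat.pow_le_pow_left (hle4.trans hle2) _).trans hle⟩

theorem homK_nonempty_pos {X : Subgroup Γ} {l : ℕ} {S : Set Γ} [Finite (HomK X l S)] :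
    1 ≤ Nat.card (HomK X l S) := by
  have : Nonempty (HomK X l S) := ⟨⟨1, fun _ _ => rfl⟩⟩
  exact Nat.card_pos

theorem homK_self {T K : Subgroup Γ} [T.Normal] (hTi : T.index ≠ 0) (hTK : T ≤ K) {r : ℕ}
    (hLD : LDT T r) {p : ℕ} (hp : p.Prime) (S : Set Γ)
    (hTfin : Finite (T →* Multiplicative (ZMod p)))
    (hTle : Nat.card (T →* Multiplicative (ZMod p)) ≤ p ^ r) :
    Finite (HomK K p S) ∧ Nat.card (HomK K p S) ≤ p ^ r * p ^ r := by
  obtain ⟨X, hTX, hXK, hk, hidx⟩ := exists_relSylow T K hTi hTK hp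
  obtain ⟨hfin, hle⟩ := hLD p hp X hTX hk
  -- Hom(X/T)
  let T' : Subgroup X := T.subgroupOf X
  have hT' : T'.Normal := inferInstance
  let e1 : (T' →* Multiplicative (ZMod p)) ≃ (T →* Multiplicative (ZMod p)) :=
    (Subgroup.subgroupOfEquivOfLe hTX).monoidHomCongrLeftEquiv
  have hfT' : Finite (T' →* Multiplicative (ZMod p)) := Finite.of_equiv _ e1.symm
  let F : (X ⧸ T' →* Multiplicative (ZMod p)) → HomK X p (T : Set Γ) := fun f =>
    ⟨f.comp (QuotientGroup.mk' T'), fun e he => by
      have : (QuotientGroup.mk' T') e = 1 := (QuotientGroup.eq_one_iff e).mpr he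
      rw [MonoidHom.comp_apply, this, map_one]⟩
  have hF : Function.Injective F := by
    intro f g hfg
    have h1 : (F f).1 = (F g).1 := congrArg Subtype.val hfg
    apply MonoidHom.ext
    intro x
    obtain ⟨y, rfl⟩ := QuotientGroup.mk'_surjective T' x
    exact DFunLike.congr_fun h1 y
  have hfQ : Finite (X ⧸ T' →* Multiplicative (ZMod p)) := Finite.of_injective F hF
  have hQle : Nat.card (X ⧸ T' →* Multiplicative (ZMod p)) ≤ p ^ r := by
    have h1 := Nat.card_le_card_of_injective F hF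
    have h2 : Nat.card (HomK X p (T : Set Γ)) ≤
        Nat.card (HomK X p (T : Set Γ)) ^ (p - 1) := by
      apply Nat.le_self_pow
      have := hp.two_le
      omega
    exact h1.trans (h2.trans hle)
  obtain ⟨hfinX, hleX⟩ := card_hom_le_mul (A := Multiplicative (ZMod p)) T' (∅ : Set X)
  have hleX' : Nat.card {f : X →* Multiplicative (ZMod p) // ∀ e ∈ (∅ : Set X), f e = 1} ≤
      p ^ r * p ^ r := by
    refine hleX.trans (Nat.mul_le_mul ?_ ?_)
    · refine le_trans ?_ hTle
      rw [← Nat.card_congr e1]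
      exact Nat.card_le_card_of_injective _ Subtype.val_injective
    · refine le_trans ?_ hQle
      exact Nat.card_le_card_of_injective _ Subtype.val_injective
  have hfX : Finite (HomK X p S) := by
    unfold HomK
    infer_instance
  have hXS : Nat.card (HomK X p S) ≤
      Nat.card {f : X →* Multiplicative (ZMod p) // ∀ e ∈ (∅ : Set X), f e = 1} := by
    let G : HomK X p S → {f : X →* Multiplicative (ZMod p) // ∀ e ∈ (∅ : Set X), f e = 1} :=
      fun f => ⟨f.1, fun e he => absurd he (Set.notMem_empty e)⟩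
    apply Nat.card_le_card_of_injective G
    intro f g hfg
    have h1 : (G f).1 = (G g).1 := congrArg Subtype.val hfg
    exact Subtype.ext h1
  obtain ⟨h1, h2⟩ := homK_restrict hp hXK hidx S
  exact ⟨h1, h2.trans (hXS.trans hleX')⟩

/-- a normal subgroup of index prime to `p` contains every relative `p`-subgroup -/
theorem le_of_not_dvd {T K GS : Subgroup Γ} [T.Normal] [hK : K.Normal] (hTK : T ≤ K)
    {p : ℕ} (hp : p.Prime) (hGSp : ∃ k, T.relIndex GS = p ^ k)
    (hidx : ¬ p ∣ K.index) (hKi : K.index ≠ 0) : GS ≤ K := by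
  have hfi : K.FiniteIndex := ⟨hKi⟩
  obtain ⟨k, hk⟩ := hGSp
  intro g hg
  rw [← QuotientGroup.eq_one_iff]
  have h1 : g ^ (p ^ k) ∈ T := by
    have h2 := Subgroup.pow_index_mem (T.subgroupOf GS) ⟨g, hg⟩
    have h3 : (T.subgroupOf GS).index = p ^ k := hk
    rw [h3] at h2
    exact h2
  have h2 : ((g : Γ ⧸ K)) ^ (p ^ k) = 1 := by
    rw [← QuotientGroup.mk_pow, QuotientGroup.eq_one_iff]
    exact hTK h1
  have h3 : (g : Γ ⧸ K) ^ K.index = 1 := by
    rw [Subgroup.index_eq_card]
    exact pow_card_eq_one'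
  have hco : Nat.Coprime (p ^ k) K.index :=
    Nat.Coprime.pow_left _ ((Nat.Prime.coprime_iff_not_dvd hp).mpr hidx)
  have h4 : orderOf (g : Γ ⧸ K) ∣ Nat.gcd (p ^ k) K.index :=
    Nat.dvd_gcd (orderOf_dvd_of_pow_eq_one h2) (orderOf_dvd_of_pow_eq_one h3)
  rw [hco, Nat.dvd_one, orderOf_eq_one_iff] at h4
  exact h4

end Counts

section Trivial

open Pool.MP_b7b920_al.CT

variable {Γ M : Type} [Group Γ] [AddCommGroup M] [DistribMulAction Γ M]

theorem derSet_trivial [Finite M] {l : ℕ} (hM : Nat.card M = l) (hl : l.Prime)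
    (htriv : ∀ (g : Γ) (m : M), g • m = m) (S : Set Γ) [Finite (HomK (⊤ : Subgroup Γ) l S)] :
    Finite (DerSet Γ M S) ∧ Nat.card (DerSet Γ M S) ≤ Nat.card (HomK (⊤ : Subgroup Γ) l S) := by
  have : Fact l.Prime := ⟨hl⟩
  have hcyc : IsAddCyclic M := isAddCyclic_of_prime_card hM
  let e : M ≃+ ZMod l := (hM ▸ zmodAddCyclicAddEquiv hcyc : ZMod l ≃+ M).symm
  let F : DerSet Γ M S → HomK (⊤ : Subgroup Γ) l S := fun d =>
    ⟨{ toFun := fun g => Multiplicative.ofAdd (e (d.1 (g : Γ)))
       map_one' := by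
        rw [OneMemClass.coe_one, IsDer.one d.2.1, map_zero, ofAdd_zero]
       map_mul' := fun g h => by
        rw [Subgroup.coe_mul, d.2.1, htriv, map_add, ofAdd_add] },
      fun g hg => by
        show Multiplicative.ofAdd (e (d.1 (g : Γ))) = 1
        rw [d.2.2 g hg, map_zero, ofAdd_zero]⟩
  have hF : Function.Injective F := by
    intro d d' h
    have h1 : (F d).1 = (F d').1 := congrArg Subtype.val h
    apply Subtype.ext
    funext g
    have h2 := DFunLike.congr_fun h1 ⟨g, Subgroup.mem_top g⟩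
    exact e.injective (Multiplicative.ofAdd.injective h2)
  exact ⟨Finite.of_injective F hF, Nat.card_le_card_of_injective F hF⟩

end Trivial

section Main

open Pool.MP_b7b920_al.CT Module

/-- Interface to the module lemmas (nontrivial simple modules). `K` is the kernel of the action. -/
def ModBound (Γ : Type) [Group Γ] : Prop :=
  ∀ (M : Type) [AddCommGroup M] [Finite M] [DistribMulAction Γ M] (_ : Simple Γ M)
    (l : ℕ) (_ : l.Prime) (_ : ∀ m : M, l • m = 0) (K : Subgroup Γ)
    (_ : ∀ g : Γ, g ∈ K ↔ ∀ m : M, g • m = m) (_ : K ≠ ⊤) (S : Set Γ)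
    (_ : Finite (HomK K l S)),
    Finite (DerSet Γ M S) ∧ ∃ F : ℕ, Nat.card (DerSet Γ M S) ≤ Nat.card M * F ∧
      F ≤ Nat.card (HomK K l S) ∧
      (l ∣ K.index → F ^ 2 ≤ Nat.card (HomK K l S) ∧ l ^ 2 ≤ Nat.card M)

/-- numerics -/
theorem num_aux {l k s F : ℕ} (hs : 2 ≤ s) (hl : l.Prime) (hk : k ≠ 0)
    (hF : if l = 2 then F ≤ 2 ^ s else F ≤ l ^ (s - 1)) (h4 : l = 2 → 4 ≤ l ^ k) :
    l ^ k * F ≤ (l ^ k) ^ s := by
  have hs1 : (l ^ k) ^ s = l ^ k * (l ^ k) ^ (s - 1) := by
    rw [← pow_succ']; congr 1; omega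
  rw [hs1]
  apply Nat.mul_le_mul_left
  split_ifs at hF with h
  · have h5 : 4 ≤ l ^ k := h4 h
    calc F ≤ 2 ^ s := hF
      _ ≤ 2 ^ (2 * (s - 1)) := Nat.pow_le_pow_right (by norm_num) (by omega)
      _ = 4 ^ (s - 1) := by rw [pow_mul]; norm_num
      _ ≤ (l ^ k) ^ (s - 1) := Nat.pow_le_pow_left h5 _
  · calc F ≤ l ^ (s - 1) := hF
      _ ≤ (l ^ k) ^ (s - 1) := Nat.pow_le_pow_left (Nat.le_self_pow hk l) _

theorem num_odd {l s h : ℕ} (hs : 2 ≤ s) (hl : l.Prime) (hl2 : l ≠ 2)
    (hh : h ^ (l - 1) ≤ l ^ s) : h ≤ l ^ (s - 1) := by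
  have h2 : 2 ≤ l - 1 := by
    have := hl.two_le
    omega
  by_contra hlt
  push Not at hlt
  have h3 : (l ^ (s - 1)) ^ 2 < h ^ 2 := Nat.pow_lt_pow_left hlt (by norm_num)
  have h4 : h ^ 2 ≤ h ^ (l - 1) := by
    apply Nat.pow_le_pow_right _ h2
    omega
  have h5 : l ^ s ≤ (l ^ (s - 1)) ^ 2 := by
    rw [← pow_mul]
    apply Nat.pow_le_pow_right hl.pos
    omega
  omega

variable {Γ L : Type} [Group Γ] [AddCommGroup L] [Module.Free ℤ L]
  [Module.Finite ℤ L] [DistribMulAction Γ L] (ι : Multiplicative L →* Γ)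

theorem step3_count_of (hMB : ModBound Γ)
    (hC : Cryst Γ L ι) (hLD : LDHyp Γ L ι) (p : ℕ) [hpF : Fact p.Prime]
    (X : Subgroup Γ) (hTX : ι.range ≤ X)
    (hX : ∃ k, ι.range.relIndex X = p ^ k) (hX' : ¬ p ∣ X.index) (hs : 2 ≤ finrank ℤ L)
    (E : Subgroup Γ) (hEX : E ≤ X)
    (hfin : Finite (X →* Multiplicative (ZMod p)))
    (hE : Nat.card {f : X →* Multiplicative (ZMod p) // ∀ e : X, (e : Γ) ∈ E → f e = 1} ≤
        (if p = 2 then p ^ finrank ℤ L else p ^ (finrank ℤ L - 1)))
    (M : Type) [AddCommGroup M] [Finite M] [DistribMulAction Γ M] (hM : Simple Γ M)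
    (hT : ∀ (v : L) (m : M), ι (Multiplicative.ofAdd v) • m = m) :
    Finite (DerSet Γ M ((E : Set Γ) ∪ mulSet ι p)) ∧
      Nat.card (DerSet Γ M ((E : Set Γ) ∪ mulSet ι p)) ≤ Nat.card M ^ finrank ℤ L := by
  classical
  have hp : p.Prime := hpF.out
  have hnt : Nontrivial M := hM.1
  have hTn : ι.range.Normal := hC.normal_range
  have hTi : ι.range.index ≠ 0 := hC.fin.index_ne_zero
  obtain ⟨l, hl, hlM, k, hk0, hk⟩ := simple_char (Γ := Γ) (M := M) hM.2
  set s := finrank ℤ L with hsdef
  have hLD' : LDT ι.range s := fun l hl X hX hk => hLD l hl X hX hk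
  set S : Set Γ := (E : Set Γ) ∪ mulSet ι p with hS
  have hpow : ∀ t ∈ ι.range, t ^ p ∈ S := by
    rintro _ ⟨v, rfl⟩
    exact Or.inr ⟨v.toAdd, by rw [← map_pow]; rfl⟩
  -- kernel of the action
  let K : Subgroup Γ :=
    { carrier := {g | ∀ m : M, g • m = m}
      one_mem' := fun m => one_smul _ m
      mul_mem' := fun {a b} ha hb m => by rw [mul_smul, hb, ha]
      inv_mem' := fun {a} ha m => by rw [inv_smul_eq_iff, ha] }
  have hKdef : ∀ g : Γ, g ∈ K ↔ ∀ m : M, g • m = m := fun g => Iff.rfl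
  have hTK : ι.range ≤ K := by
    rintro _ ⟨v, rfl⟩
    exact hT v.toAdd
  have hKn : K.Normal := by
    constructor
    intro n hn g m
    rw [mul_smul, mul_smul, hn, smul_inv_smul]
  have hKi : K.index ≠ 0 := by
    intro h0
    have := Subgroup.index_dvd_of_le hTK
    rw [h0] at this
    exact hTi (Nat.eq_zero_of_zero_dvd this)
  have hXfin : Finite (HomK X p (E : Set Γ)) := by
    unfold HomK; infer_instance
  have hXS : Finite (HomK X p S) := by
    unfold HomK; infer_instance
  have hXle : Nat.card (HomK X p S) ≤ (if p = 2 then p ^ s else p ^ (s - 1)) := by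
    refine le_trans ?_ hE
    exact (homK_mono (X := X) (l := p) (S := (E : Set Γ)) (S' := S)
      (fun f hf e he => hf e (Or.inl he))).2
  -- key bound for `l ≠ p`
  by_cases htriv : K = ⊤
  · have htriv' : ∀ (g : Γ) (m : M), g • m = m := fun g => (hKdef g).mp (htriv ▸ mem_top g)
    have hcard : Nat.card M = l := simple_trivial_card (Γ := Γ) hM.2 htriv' hl hlM
    have key : Finite (HomK (⊤ : Subgroup Γ) l S) ∧
        Nat.card (HomK (⊤ : Subgroup Γ) l S) ≤ l ^ s := by
      by_cases hlp : l = p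
      · rw [hlp]
        obtain ⟨h1, h2⟩ := homK_restrict hp (le_top : X ≤ ⊤)
          (by rw [Subgroup.relIndex_top_right]; exact hX') S
        refine ⟨h1, h2.trans (hXle.trans ?_)⟩
        split_ifs
        · exact le_rfl
        · exact Nat.pow_le_pow_right hp.pos (by omega)
      · obtain ⟨h1, h2⟩ := homK_ne hTi (le_top : ι.range ≤ ⊤) hLD' hl hp hlp hpow
        refine ⟨h1, le_trans ?_ h2⟩
        apply Nat.le_self_pow
        have := hl.two_le
        omega
    obtain ⟨h1, h2⟩ := key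
    obtain ⟨h3, h4⟩ := derSet_trivial hcard hl htriv' S
    exact ⟨h3, h4.trans (h2.trans (by rw [hcard]))⟩
  · -- nontrivial action
    have h4 : l = 2 → 4 ≤ l ^ k := by
      intro h
      rw [← hk]
      apply four_le_card (Γ := Γ) h hk
      by_contra hno
      push Not at hno
      exact htriv ((eq_top_iff' K).mpr hno)
    by_cases hlp : l = p
    · by_cases hdvd : p ∣ K.index
      · obtain ⟨hTf1, hTf2⟩ := card_hom_free (L := L) (A := Multiplicative (ZMod p))
        have : NeZero p := ⟨hp.ne_zero⟩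
        let eT : Multiplicative L ≃* ι.range := MonoidHom.ofInjective hC.inj
        let e1 : (Multiplicative L →* Multiplicative (ZMod p)) ≃
            (ι.range →* Multiplicative (ZMod p)) := eT.monoidHomCongrLeftEquiv
        have hTf3 : Finite (ι.range →* Multiplicative (ZMod p)) := Finite.of_equiv _ e1
        have hTf4 : Nat.card (ι.range →* Multiplicative (ZMod p)) ≤ p ^ s := by
          rw [← Nat.card_congr e1, hTf2, card_mult_zmod]
        obtain ⟨h1, h2⟩ := homK_self hTi hTK hLD' hp S hTf3 hTf4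
        subst hlp
        obtain ⟨hf, F, hF1, hF2, hF3⟩ := hMB M hM l hl hlM K hKdef htriv S h1
        obtain ⟨hF4, hM2⟩ := hF3 hdvd
        refine ⟨hf, hF1.trans ?_⟩
        have h5 : F ≤ l ^ s := by
          have : F ^ 2 ≤ (l ^ s) ^ 2 := by
            rw [pow_two (l ^ s)]; exact hF4.trans h2
          exact (Nat.pow_le_pow_iff_left (by norm_num)).mp this
        have h6 : (Nat.card M) ^ s = Nat.card M * Nat.card M ^ (s - 1) := by
          rw [← pow_succ']; congr 1; omega
        rw [h6]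
        apply Nat.mul_le_mul_left
        calc F ≤ l ^ s := h5
          _ ≤ l ^ (2 * (s - 1)) := Nat.pow_le_pow_right hl.pos (by omega)
          _ = (l ^ 2) ^ (s - 1) := by rw [pow_mul]
          _ ≤ Nat.card M ^ (s - 1) := Nat.pow_le_pow_left hM2 _
      · have hXK : X ≤ K := le_of_not_dvd hTK hp hX hdvd hKi
        have hidx : ¬ p ∣ X.relIndex K := fun h =>
          hX' (h.trans (Dvd.intro _ (Subgroup.relIndex_mul_index hXK)))
        obtain ⟨h1, h2⟩ := homK_restrict hp hXK hidx S
        subst hlp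
        obtain ⟨hf, F, hF1, hF2, hF3⟩ := hMB M hM l hl hlM K hKdef htriv S h1
        refine ⟨hf, hF1.trans ?_⟩
        rw [hk]
        apply num_aux hs hl hk0 _ h4
        have h5 : F ≤ (if l = 2 then l ^ s else l ^ (s - 1)) := hF2.trans (h2.trans hXle)
        split_ifs at h5 ⊢ with h
        · rwa [h] at h5
        · exact h5
    · obtain ⟨h1, h2⟩ := homK_ne hTi hTK hLD' hl hp hlp hpow
      obtain ⟨hf, F, hF1, hF2, hF3⟩ := hMB M hM l hl hlM K hKdef htriv S h1
      refine ⟨hf, hF1.trans ?_⟩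
      rw [hk]
      apply num_aux hs hl hk0 _ h4
      split_ifs with h
      · subst h
        refine hF2.trans ?_
        simpa using h2
      · exact hF2.trans (num_odd hs hl h h2)

end Main

end Pool.MP_b7b920_al.H19
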