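import Mathlib
import Pool.Agent.Lib.MP_b7b920_al_h19.Step3

set_option autoImplicit false

/-!
# Module lemmas for Step 3 (nontrivial simple modules)
-/

namespace Pool.MP_b7b920_al.H19

open Pool.B7h12 Subgroup Pool.MP_b7b920_al.CT
open scoped commutatorElement

section EndG

variable {Γ M : Type} [Group Γ] [AddCommGroup M] [DistribMulAction Γ M]

/-- equivariant additive endomorphisms -/
def EndG (Γ M : Type) [Group Γ] [AddCommGroup M] [DistribMulAction Γ M] : Type :=
  {φ : M →+ M // ∀ (g : Γ) (m : M), φ (g • m) = g • φ m}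

theorem endG_inj (hs : IsSimpleMod Γ M) (φ : M →+ M)
    (hφ : ∀ (g : Γ) (m : M), φ (g • m) = g • φ m) (x : M) (hx : φ x ≠ 0) (m : M)
    (hm : φ m = 0) : m = 0 := by
  have h1 : ∀ (g : Γ), ∀ y ∈ φ.ker, g • y ∈ φ.ker := by
    intro g y hy
    rw [AddMonoidHom.mem_ker] at hy ⊢
    rw [hφ, hy, smul_zero]
  rcases hs _ h1 with h | h
  · have : m ∈ φ.ker := hm
    rw [h, AddSubgroup.mem_bot] at this
    exact this
  · exfalso
    have : x ∈ φ.ker := h ▸ AddSubgroup.mem_top x
    exact hx this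

theorem endG_eval_inj (hs : IsSimpleMod Γ M) {x : M} (hx : x ≠ 0) :
    Function.Injective (fun φ : EndG Γ M => φ.1 x) := by
  intro φ ψ h
  by_contra hne
  have h1 : (φ.1 - ψ.1) x = 0 := by
    rw [AddMonoidHom.sub_apply]
    exact sub_eq_zero.mpr h
  have h2 : ∃ y, (φ.1 - ψ.1) y ≠ 0 := by
    by_contra hno
    push Not at hno
    apply hne
    apply Subtype.ext
    ext y
    have := hno y
    rw [AddMonoidHom.sub_apply] at this
    exact sub_eq_zero.mp this
  obtain ⟨y, hy⟩ := h2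
  have h3 : ∀ (g : Γ) (m : M), (φ.1 - ψ.1) (g • m) = g • (φ.1 - ψ.1) m := by
    intro g m
    rw [AddMonoidHom.sub_apply, AddMonoidHom.sub_apply, φ.2, ψ.2, smul_sub]
  exact hx (endG_inj hs _ h3 y hy x h1)

theorem endG_finite [Finite M] [Nontrivial M] (hs : IsSimpleMod Γ M) : Finite (EndG Γ M) := by
  obtain ⟨x, hx⟩ := exists_ne (0 : M)
  exact Finite.of_injective _ (endG_eval_inj hs hx)

theorem card_endG_le [Finite M] [Nontrivial M] (hs : IsSimpleMod Γ M) :
    Nat.card (EndG Γ M) ≤ Nat.card M := by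
  obtain ⟨x, hx⟩ := exists_ne (0 : M)
  exact Nat.card_le_card_of_injective _ (endG_eval_inj hs hx)

/-- vector `x` with `(g-1)x ≠ 0`, `(g-1)²x = 0` -/
theorem exists_unipotent_vector [Nontrivial M] {l : ℕ} (hl : l.Prime)
    (hlM : ∀ m : M, l • m = 0) (g : Γ) (hg : ∃ m : M, g • m ≠ m)
    (hgl : ∀ m : M, g ^ l • m = m) :
    ∃ x : M, g • x - x ≠ 0 ∧ g • (g • x - x) = g • x - x := by
  classical
  let G0 : AddMonoid.End M := DistribMulAction.toAddMonoidEnd Γ M g
  let N : AddMonoid.End M := G0 - 1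
  have hNapp : ∀ m : M, N m = g • m - m := fun m => rfl
  have hcast : ((l : ℕ) : AddMonoid.End M) = 0 := by
    ext m
    rw [AddMonoid.End.natCast_apply]
    exact hlM m
  have hntE : Nontrivial (AddMonoid.End M) := by
    obtain ⟨x, hx⟩ := exists_ne (0 : M)
    refine ⟨⟨0, 1, ?_⟩⟩
    intro h
    have := DFunLike.congr_fun h x
    exact hx this.symm
  have hchar : CharP (AddMonoid.End M) l := (CharP.charP_iff_prime_eq_zero hl).mpr hcast
  have : Fact l.Prime := ⟨hl⟩
  have hNl : N ^ l = 0 := by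
    have hcomm : Commute G0 (1 : AddMonoid.End M) := Commute.one_right _
    have h1 : N ^ l = G0 ^ l - 1 ^ l := sub_pow_char_of_commute _ hcomm
    rw [h1, one_pow, sub_eq_zero]
    show (DistribMulAction.toAddMonoidEnd Γ M g) ^ l = 1
    rw [← map_pow]
    ext m
    exact hgl m
  have hex : ∃ j, N ^ j = 0 := ⟨l, hNl⟩
  let j := Nat.find hex
  have hj : N ^ j = 0 := Nat.find_spec hex
  have hj2 : 2 ≤ j := by
    by_contra hlt
    have : j = 0 ∨ j = 1 := by omega
    rcases this with h | h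
    · rw [h, pow_zero] at hj
      exact one_ne_zero hj
    · rw [h, pow_one] at hj
      obtain ⟨m, hm⟩ := hg
      apply hm
      have := DFunLike.congr_fun hj m
      rw [hNapp] at this
      exact sub_eq_zero.mp this
  have hj1 : N ^ (j - 1) ≠ 0 := Nat.find_min hex (by omega)
  have h3 : ∃ x', (N ^ (j - 1)) x' ≠ 0 := by
    by_contra hno
    push Not at hno
    apply hj1
    ext m
    exact hno m
  obtain ⟨x', hx'⟩ := h3
  refine ⟨(N ^ (j - 2)) x', ?_, ?_⟩
  · rw [← hNapp]
    have : N ^ (j - 1) = N * N ^ (j - 2) := by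
      rw [← pow_succ']; congr 1; omega
    rw [this] at hx'
    exact hx'
  · have h4 : N (N ((N ^ (j - 2)) x')) = 0 := by
      have : N ^ j = N * (N * N ^ (j - 2)) := by
        rw [← pow_succ', ← pow_succ']; congr 1; omega
      have h5 := DFunLike.congr_fun hj x'
      rw [this] at h5
      exact h5
    rw [← hNapp ((N ^ (j - 2)) x')]
    rw [hNapp (N ((N ^ (j - 2)) x'))] at h4
    exact sub_eq_zero.mp h4

theorem card_endG_sq [Finite M] [Nontrivial M] (hs : IsSimpleMod Γ M) {l : ℕ} (hl : l.Prime)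
    (hlM : ∀ m : M, l • m = 0) (g : Γ) (hg : ∃ m : M, g • m ≠ m)
    (hgl : ∀ m : M, g ^ l • m = m) :
    (Nat.card (EndG Γ M)) ^ 2 ≤ Nat.card M ∧ l ^ 2 ≤ Nat.card M := by
  classical
  obtain ⟨x, hx1, hx2⟩ := exists_unipotent_vector hl hlM g hg hgl
  have hfin := endG_finite (Γ := Γ) hs
  set y := g • x - x with hy
  have hx0 : x ≠ 0 := by
    rintro rfl
    apply hx1
    rw [hy, smul_zero, sub_zero]
  have hgx : g • x = x + y := by rw [hy]; abel
  -- injectivity
  have hinj : Function.Injective (fun ab : EndG Γ M × EndG Γ M => ab.1.1 x + ab.2.1 y) := by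
    rintro ⟨a, b⟩ ⟨a', b'⟩ h
    simp only at h
    have h1 : g • (a.1 x + b.1 y) = g • (a'.1 x + b'.1 y) := by rw [h]
    rw [smul_add, smul_add, ← a.2, ← b.2, ← a'.2, ← b'.2, hx2, hgx, map_add, map_add] at h1
    have h2 : a.1 y = a'.1 y := by
      have h3 : a.1 y + (a.1 x + b.1 y) = a'.1 y + (a'.1 x + b'.1 y) := by
        calc a.1 y + (a.1 x + b.1 y) = a.1 x + a.1 y + b.1 y := by abel
          _ = a'.1 x + a'.1 y + b'.1 y := h1
          _ = a'.1 y + (a'.1 x + b'.1 y) := by abel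
      rw [h] at h3
      exact add_right_cancel h3
    have h4 : a = a' := endG_eval_inj hs hx1 h2
    subst h4
    have h5 : b.1 y = b'.1 y := add_left_cancel h
    have h6 : b = b' := endG_eval_inj hs hx1 h5
    rw [h6]
  have hsq : (Nat.card (EndG Γ M)) ^ 2 ≤ Nat.card M := by
    rw [pow_two, ← Nat.card_prod]
    exact Nat.card_le_card_of_injective _ hinj
  refine ⟨hsq, le_trans (Nat.pow_le_pow_left ?_ 2) hsq⟩
  -- `l ≤ |End|`
  let F : Fin l → EndG Γ M := fun n => ⟨(n : ℕ) • AddMonoidHom.id M, fun g m => by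
    rw [AddMonoidHom.nsmul_apply, AddMonoidHom.nsmul_apply]
    exact (map_nsmul (DistribSMul.toAddMonoidHom M g) (n : ℕ) m).symm⟩
  have hF : Function.Injective F := by
    intro a b hab
    have h1 : (F a).1 x = (F b).1 x := by rw [hab]
    have h2 : (a : ℕ) • x = (b : ℕ) • x := h1
    have h3 : addOrderOf x = l := by
      have : Fact l.Prime := ⟨hl⟩
      exact addOrderOf_eq_prime (hlM x) hx0
    have h4 : (a : ℕ) = (b : ℕ) := by
      have := nsmul_injOn_Iio_addOrderOf (x := x) (by rw [h3]; exact a.2) (by rw [h3]; exact b.2) h2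
      exact this
    exact Fin.ext h4
  have := Nat.card_le_card_of_injective F hF
  rwa [Nat.card_fin] at this

end EndG

section Dual

theorem card_dual_field {k V : Type*} [Field k] [Finite k] [AddCommGroup V] [Module k V]
    [Finite V] : Nat.card (V →ₗ[k] k) = Nat.card V := by
  have hfinV : Module.Finite k V := Module.Finite.of_finite
  have h1 : Module.Finite k (Module.Dual k V) := inferInstance
  have h2 : Nat.card (V →ₗ[k] k) = Nat.card k ^ Module.finrank k (Module.Dual k V) :=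
    Module.natCard_eq_pow_finrank (K := k) (V := Module.Dual k V)
  rw [h2, Subspace.dual_finrank_eq, ← Module.natCard_eq_pow_finrank (K := k) (V := V)]

theorem card_dual_zmod {V : Type*} [AddCommGroup V] [Finite V] {l : ℕ} (hl : l.Prime)
    (hV : ∀ v : V, l • v = 0) :
    Finite (V →+ ZMod l) ∧ Nat.card (V →+ ZMod l) = Nat.card V := by
  have : Fact l.Prime := ⟨hl⟩
  have : NeZero l := ⟨hl.ne_zero⟩
  let _ : Module (ZMod l) V := AddCommGroup.zmodModule hV
  let e : (V →+ ZMod l) ≃ (V →ₗ[ZMod l] ZMod l) :=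
    { toFun := fun f => f.toZModLinearMap l
      invFun := fun f => f.toAddMonoidHom
      left_inv := fun f => by ext; rfl
      right_inv := fun f => by ext; rfl }
  have h1 : Finite (V →+ ZMod l) :=
    Finite.of_injective (fun f : V →+ ZMod l => (f : V → ZMod l)) DFunLike.coe_injective
  refine ⟨h1, ?_⟩
  rw [Nat.card_congr e]
  exact card_dual_field

end Dual

section EqHom

variable {Γ M : Type} [Group Γ] [AddCommGroup M] [DistribMulAction Γ M]

/-- equivariant homomorphisms from the normal subgroup `K` to `M` killing `S` -/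
def EqHom (K : Subgroup Γ) (M : Type) [AddCommGroup M] [DistribMulAction Γ M] (S : Set Γ) :
    Type :=
  {f : K →* Multiplicative M // (∀ (g : Γ) (k : K) (h : g * k * g⁻¹ ∈ K),
    f ⟨g * k * g⁻¹, h⟩ = Multiplicative.ofAdd (g • (f k).toAdd)) ∧
      ∀ k : K, (k : Γ) ∈ S → f k = 1}

theorem eqHom_bound [Finite M] [Nontrivial M] (hs : IsSimpleMod Γ M) {l : ℕ} (hl : l.Prime)
    (hlM : ∀ m : M, l • m = 0) (K : Subgroup Γ) [hK : K.Normal] (S : Set Γ)
    [Finite (HomK K l S)] :
    Finite (EqHom K M S) ∧ ∃ n : ℕ, Nat.card (EqHom K M S) ≤ Nat.card (EndG Γ M) ^ n ∧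
      Nat.card M ^ n ≤ Nat.card (HomK K l S) := by
  classical
  have hfinE := endG_finite (Γ := Γ) hs
  let P : ℕ → Prop := fun n => ∃ f : Fin n → EqHom K M S,
    Function.Surjective (fun k : K => fun i => ((f i).1 k).toAdd)
  -- `P n` bounds `|M|^n`
  have hbound : ∀ n, P n → Nat.card M ^ n ≤ Nat.card (HomK K l S) := by
    rintro n ⟨f, hf⟩
    have hV : ∀ v : Fin n → M, l • v = 0 := fun v => by
      funext i; exact hlM (v i)
    obtain ⟨hd1, hd2⟩ := card_dual_zmod (V := Fin n → M) hl hV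
    let F : ((Fin n → M) →+ ZMod l) → HomK K l S := fun χ =>
      ⟨{ toFun := fun k => Multiplicative.ofAdd (χ (fun i => ((f i).1 k).toAdd))
         map_one' := by
          have : (fun i => Multiplicative.toAdd ((f i).1 (1 : K))) = 0 := by
            funext i; rw [map_one]; rfl
          rw [this, map_zero, ofAdd_zero]
         map_mul' := fun a b => by
          have : (fun i => Multiplicative.toAdd ((f i).1 (a * b))) =
              (fun i => Multiplicative.toAdd ((f i).1 a)) +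
                (fun i => Multiplicative.toAdd ((f i).1 b)) := by
            funext i; rw [map_mul]; rfl
          rw [this, map_add, ofAdd_add] },
        fun e he => by
          show Multiplicative.ofAdd (χ (fun i => ((f i).1 e).toAdd)) = 1
          have : (fun i => Multiplicative.toAdd ((f i).1 e)) = 0 := by
            funext i; rw [(f i).2.2 e he]; rfl
          rw [this, map_zero, ofAdd_zero]⟩
    have hF : Function.Injective F := by
      intro χ ψ h
      have h1 : (F χ).1 = (F ψ).1 := congrArg Subtype.val h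
      apply DFunLike.ext
      intro v
      obtain ⟨k, hk⟩ := hf v
      have h2 := DFunLike.congr_fun h1 k
      have h3 : χ (fun i => ((f i).1 k).toAdd) = ψ (fun i => ((f i).1 k).toAdd) :=
        Multiplicative.ofAdd.injective h2
      have hk' : (fun i => ((f i).1 k).toAdd) = v := hk
      rwa [hk'] at h3
    have h3 := Nat.card_le_card_of_injective F hF
    rw [hd2, Nat.card_fun, Nat.card_fin] at h3
    exact h3
  have hP0 : P 0 := ⟨Fin.elim0, fun v => ⟨1, by funext i; exact i.elim0⟩⟩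
  -- choose the largest `n`
  let B := Nat.card (HomK K l S)
  have hM2 : 2 ≤ Nat.card M := Finite.one_lt_card
  have hlt : ∀ n, P n → n ≤ B := by
    intro n hn
    have h1 := hbound n hn
    have h2 : n < 2 ^ n := Nat.lt_two_pow_self
    have h3 : 2 ^ n ≤ Nat.card M ^ n := Nat.pow_le_pow_left hM2 n
    omega
  let n := Nat.findGreatest P B
  have hn : P n := Nat.findGreatest_spec (Nat.zero_le B) hP0
  have hn1 : ¬ P (n + 1) := by
    intro h
    have h1 := Nat.le_findGreatest (hlt _ h) h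
    have h2 : n + 1 ≤ n := h1
    omega
  obtain ⟨f, hf⟩ := hn
  have hn : P n := ⟨f, hf⟩
  let fv : K → Fin n → M := fun k i => ((f i).1 k).toAdd
  have hfv : Function.Surjective fv := hf
  have hfv_mul : ∀ a b, fv (a * b) = fv a + fv b := fun a b => by
    funext i; show ((f i).1 (a * b)).toAdd = _; rw [map_mul]; rfl
  have hfv_inv : ∀ a, fv a⁻¹ = - fv a := fun a => by
    funext i; show ((f i).1 a⁻¹).toAdd = _; rw [map_inv]; rfl
  have hfv_conj : ∀ (g : Γ) (k : K), fv ⟨g * k * g⁻¹, hK.conj_mem _ k.2 g⟩ = g • fv k :=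
    fun g k => by
      funext i
      show ((f i).1 ⟨g * k * g⁻¹, hK.conj_mem _ k.2 g⟩).toAdd = _
      rw [(f i).2.1 g k]; rfl
  -- every equivariant hom factors through `fv`
  have hker : ∀ (h : EqHom K M S) (k : K), fv k = 0 → h.1 k = 1 := by
    intro h
    by_contra hno
    push Not at hno
    obtain ⟨k0, hk0, hk0'⟩ := hno
    apply hn1
    let W : AddSubgroup M :=
      { carrier := {m | ∃ k : K, fv k = 0 ∧ h.1 k = Multiplicative.ofAdd m}
        add_mem' := by
          rintro a b ⟨k, hk, hk'⟩ ⟨j, hj, hj'⟩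
          exact ⟨k * j, by rw [hfv_mul, hk, hj, add_zero], by rw [map_mul, hk', hj', ofAdd_add]⟩
        zero_mem' := ⟨1, by funext i; show ((f i).1 1).toAdd = 0; rw [map_one]; rfl,
          by rw [map_one, ofAdd_zero]⟩
        neg_mem' := by
          rintro a ⟨k, hk, hk'⟩
          exact ⟨k⁻¹, by rw [hfv_inv, hk, neg_zero], by rw [map_inv, hk', ofAdd_neg]⟩ }
    have hW : ∀ (g : Γ), ∀ m ∈ W, g • m ∈ W := by
      rintro g m ⟨k, hk, hk'⟩
      refine ⟨⟨g * k * g⁻¹, hK.conj_mem _ k.2 g⟩, by rw [hfv_conj, hk, smul_zero], ?_⟩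
      rw [h.2.1 g k, hk']; rfl
    have hWtop : W = ⊤ := by
      rcases hs W hW with h1 | h1
      · exfalso
        have : (h.1 k0).toAdd ∈ W := ⟨k0, hk0, rfl⟩
        rw [h1, AddSubgroup.mem_bot] at this
        exact hk0' this
      · exact h1
    refine ⟨Fin.snoc (α := fun _ => EqHom K M S) f h, ?_⟩
    intro v
    obtain ⟨k, hk⟩ := hfv (fun i => v i.castSucc)
    have : v (Fin.last n) - (h.1 k).toAdd ∈ W := hWtop ▸ AddSubgroup.mem_top _
    obtain ⟨k', hk1, hk2⟩ := this
    refine ⟨k * k', ?_⟩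
    funext i
    refine Fin.lastCases ?_ (fun i => ?_) i
    · simp only [Fin.snoc_last]
      rw [map_mul, hk2]
      show (h.1 k).toAdd + (v (Fin.last n) - (h.1 k).toAdd) = _
      abel
    · simp only [Fin.snoc_castSucc]
      have h3 : fv (k * k') i = v i.castSucc := by
        rw [hfv_mul, hk1, add_zero, hk]
      exact h3
  have hker' : ∀ (h : EqHom K M S) (a b : K), fv a = fv b → h.1 a = h.1 b := by
    intro h a b hab
    have h1 : h.1 (a * b⁻¹) = 1 := hker h _ (by rw [hfv_mul, hfv_inv, hab]; abel)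
    rw [map_mul, map_inv, mul_inv_eq_one] at h1
    exact h1
  choose lift hlift using hfv
  -- the homomorphism `M^n → M`
  let Ψ : EqHom K M S → ((Fin n → M) →+ M) := fun h =>
    { toFun := fun v => (h.1 (lift v)).toAdd
      map_zero' := by
        have : h.1 (lift 0) = 1 := hker h _ (hlift 0)
        rw [this]; rfl
      map_add' := fun a b => by
        have : h.1 (lift (a + b)) = h.1 (lift a * lift b) :=
          hker' h _ _ (by rw [hlift, hfv_mul, hlift, hlift])
        rw [this, map_mul]; rfl }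
  have hΨeq : ∀ (h : EqHom K M S) (g : Γ) (v : Fin n → M), Ψ h (g • v) = g • Ψ h v := by
    intro h g v
    show (h.1 (lift (g • v))).toAdd = g • (h.1 (lift v)).toAdd
    have h1 : h.1 (lift (g • v)) = h.1 ⟨g * lift v * g⁻¹, hK.conj_mem _ (lift v).2 g⟩ :=
      hker' h _ _ (by rw [hlift, hfv_conj, hlift])
    rw [h1, h.2.1 g (lift v)]; rfl
  let Φ : EqHom K M S → (Fin n → EndG Γ M) := fun h i =>
    ⟨(Ψ h).comp (AddMonoidHom.single (fun _ => M) i), fun g m => by
      have h1 : (Pi.single i (g • m) : Fin n → M) = g • Pi.single i m :=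
        Pi.single_smul' i g m
      show Ψ h (Pi.single i (g • m)) = g • Ψ h (Pi.single i m)
      rw [h1, hΨeq]⟩
  have hΦ : Function.Injective Φ := by
    intro h h' hh
    have h1 : Ψ h = Ψ h' := by
      apply AddMonoidHom.functions_ext
      intro i x
      have h2 := congrFun hh i
      have h3 : (Φ h i).1 x = (Φ h' i).1 x := by rw [h2]
      exact h3
    apply Subtype.ext
    apply MonoidHom.ext
    intro k
    have h2 : h.1 k = h.1 (lift (fv k)) := hker' h _ _ (by rw [hlift])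
    have h3 : h'.1 k = h'.1 (lift (fv k)) := hker' h' _ _ (by rw [hlift])
    have h4 : Ψ h (fv k) = Ψ h' (fv k) := by rw [h1]
    rw [h2, h3]
    exact h4
  refine ⟨Finite.of_injective Φ hΦ, n, ?_, hbound n hn⟩
  have h5 := Nat.card_le_card_of_injective Φ hΦ
  rwa [Nat.card_fun, Nat.card_fin] at h5

end EqHom

section HOne

variable {Γ M : Type} [Group Γ] [AddCommGroup M] [DistribMulAction Γ M]

/-- fixed vector of a subgroup acting through a group of exponent `l` -/
theorem exists_fixed_of_pow [Finite M] {l : ℕ} (hl : l.Prime) (hdvd : l ∣ Nat.card M)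
    (R : Subgroup Γ) (hR : ∀ t ∈ R, ∀ m : M, t ^ l • m = m) :
    ∃ m : M, m ≠ 0 ∧ ∀ t ∈ R, t • m = m := by
  let ρ : Γ →* Equiv.Perm M := MulAction.toPermHom Γ M
  let Q : Subgroup (Equiv.Perm M) := R.map ρ
  have hQ : IsPGroup l Q := by
    rintro ⟨q, t, ht, rfl⟩
    refine ⟨1, ?_⟩
    apply Subtype.ext
    show (ρ t) ^ (l ^ 1) = 1
    rw [pow_one, ← map_pow]
    ext m
    exact hR t ht m
  have : Fact l.Prime := ⟨hl⟩
  have h0fix : (0 : M) ∈ MulAction.fixedPoints Q M := by
    rintro ⟨q, t, ht, rfl⟩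
    show t • (0 : M) = 0
    exact smul_zero t
  obtain ⟨m, hm, hne⟩ := hQ.exists_fixed_point_of_prime_dvd_card_of_fixed_point M hdvd h0fix
  exact ⟨m, hne.symm, fun t ht => hm ⟨ρ t, t, ht, rfl⟩⟩

theorem exists_R [Group.IsSolvable Γ] [Finite M] [Nontrivial M] (hs : IsSimpleMod Γ M) {l : ℕ}
    (hl : l.Prime) (hlM : ∀ m : M, l • m = 0) (K : Subgroup Γ) [hKn : K.Normal]
    (hK : ∀ g : Γ, g ∈ K ↔ ∀ m : M, g • m = m) (hKtop : K ≠ ⊤) (hKi : K.index ≠ 0) :
    ∃ R : Subgroup Γ, R.Normal ∧ K ≤ R ∧ Nat.Coprime (K.relIndex R) l ∧ K.relIndex R ≠ 0 ∧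
      ∀ m : M, (∀ r ∈ R, r • m = m) → m = 0 := by
  classical
  have hfi : K.FiniteIndex := ⟨hKi⟩
  have hfin : Finite (Γ ⧸ K) := inferInstance
  let π : Γ →* Γ ⧸ K := QuotientGroup.mk' K
  have hπ : Function.Surjective π := QuotientGroup.mk'_surjective K
  have hπ1 : ∀ g : Γ, π g = 1 ↔ g ∈ K := fun g => QuotientGroup.eq_one_iff g
  -- last term of the derived series not in `K`
  have hex : ∃ n, derivedSeries Γ n ≤ K := by
    obtain ⟨n, hn⟩ := Group.IsSolvable.solvable (G := Γ)
    exact ⟨n, hn ▸ bot_le⟩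
  let n := Nat.find hex
  have hn : derivedSeries Γ n ≤ K := Nat.find_spec hex
  have hn0 : n ≠ 0 := by
    intro h0
    rw [h0, derivedSeries_zero] at hn
    exact hKtop (top_le_iff.mp hn)
  obtain ⟨j, hj⟩ := Nat.exists_eq_succ_of_ne_zero hn0
  let D := derivedSeries Γ j
  have hDK : ¬ D ≤ K := Nat.find_min hex (by show j < n; omega)
  have hDn : D.Normal := derivedSeries_normal Γ j
  have hDD : ∀ a ∈ D, ∀ b ∈ D, π a * π b = π b * π a := by
    intro a ha b hb
    have h1 : ⁅a, b⁆ ∈ K := by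
      apply hn
      rw [hj, derivedSeries_succ]
      exact Subgroup.commutator_mem_commutator ha hb
    have h2 : π ⁅a, b⁆ = 1 := (hπ1 _).mpr h1
    rw [map_commutatorElement] at h2
    exact commutatorElement_eq_one_iff_mul_comm.mp h2
  obtain ⟨d, hdD, hdK⟩ := SetLike.not_le_iff_exists.mp hDK
  have hd1 : π d ≠ 1 := fun h => hdK ((hπ1 d).mp h)
  let o := orderOf (π d)
  have ho1 : o ≠ 1 := fun h => hd1 (orderOf_eq_one_iff.mp h)
  let r := o.minFac
  have hr : r.Prime := Nat.minFac_prime ho1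
  have hro : r ∣ o := Nat.minFac_dvd o
  have ho0 : 0 < o := orderOf_pos _
  -- the subgroup `R`
  let R : Subgroup Γ :=
    { carrier := {b | (∃ a ∈ D, π b = π a) ∧ (π b) ^ r = 1}
      one_mem' := ⟨⟨1, one_mem _, rfl⟩, by rw [map_one, one_pow]⟩
      mul_mem' := by
        rintro a b ⟨⟨a', ha', haa⟩, har⟩ ⟨⟨b', hb', hbb⟩, hbr⟩
        refine ⟨⟨a' * b', mul_mem ha' hb', by rw [map_mul, map_mul, haa, hbb]⟩, ?_⟩
        have hc : Commute (π a) (π b) := by
          rw [haa, hbb]; exact hDD a' ha' b' hb'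
        rw [map_mul, hc.mul_pow, har, hbr, one_mul]
      inv_mem' := by
        rintro a ⟨⟨a', ha', haa⟩, har⟩
        exact ⟨⟨a'⁻¹, inv_mem ha', by rw [map_inv, map_inv, haa]⟩,
          by rw [map_inv, inv_pow, har, inv_one]⟩ }
  have hRmem : ∀ b, b ∈ R ↔ (∃ a ∈ D, π b = π a) ∧ (π b) ^ r = 1 := fun b => Iff.rfl
  have hRn : R.Normal := by
    constructor
    rintro b ⟨⟨a, ha, hba⟩, hbr⟩ g
    refine ⟨⟨g * a * g⁻¹, hDn.conj_mem a ha g, by simp only [map_mul, map_inv, hba]⟩, ?_⟩
    have : (π g * π b * (π g)⁻¹) ^ r = π g * (π b) ^ r * (π g)⁻¹ := conj_pow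
    rw [map_mul, map_mul, map_inv, this, hbr, mul_one, mul_inv_cancel]
  have hKR : K ≤ R := by
    intro k hk
    have h1 : π k = 1 := (hπ1 k).mpr hk
    exact ⟨⟨1, one_mem _, by rw [h1, map_one]⟩, by rw [h1, one_pow]⟩
  -- an element of `R` outside `K`
  have hRK : ∃ d' ∈ R, d' ∉ K := by
    refine ⟨d ^ (o / r), ⟨⟨d ^ (o / r), pow_mem hdD _, rfl⟩, ?_⟩, ?_⟩
    · rw [map_pow, ← pow_mul, Nat.div_mul_cancel hro]
      exact pow_orderOf_eq_one _
    · intro h
      have h1 : (π d) ^ (o / r) = 1 := by rw [← map_pow]; exact (hπ1 _).mpr h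
      have h2 : o ∣ o / r := orderOf_dvd_of_pow_eq_one h1
      have h3 : o / r < o := Nat.div_lt_self ho0 hr.one_lt
      have h4 : 0 < o / r := Nat.div_pos (Nat.le_of_dvd ho0 hro) hr.pos
      exact absurd (Nat.le_of_dvd h4 h2) (by omega)
  -- fixed points
  have hfix : ∀ m : M, (∀ r ∈ R, r • m = m) → m = 0 := by
    let U : AddSubgroup M :=
      { carrier := {m | ∀ t ∈ R, t • m = m}
        add_mem' := fun {a b} ha hb t ht => by rw [smul_add, ha t ht, hb t ht]
        zero_mem' := fun t _ => smul_zero t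
        neg_mem' := fun {a} ha t ht => by rw [smul_neg, ha t ht] }
    have hU : ∀ (g : Γ), ∀ m ∈ U, g • m ∈ U := by
      intro g m hm t ht
      have h2 : g⁻¹ * t * g ∈ R := by
        have := hRn.conj_mem t ht g⁻¹
        rwa [inv_inv] at this
      have h3 : (g⁻¹ * t * g) • m = m := hm _ h2
      have h4 : t • g • m = g • ((g⁻¹ * t * g) • m) := by
        simp only [smul_smul]; congr 1; group
      rw [h4, h3]
    rcases hs U hU with h | h
    · intro m hm
      have : m ∈ U := hm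
      rw [h, AddSubgroup.mem_bot] at this
      exact this
    · exfalso
      obtain ⟨d', hd', hd''⟩ := hRK
      apply hd''
      rw [hK]
      intro m
      have : m ∈ U := h ▸ AddSubgroup.mem_top m
      exact this d' hd'
  -- `r ≠ l`
  have hrl : r ≠ l := by
    intro hrl
    obtain ⟨l', hl', hlM', k, hk0, hk⟩ := simple_char (Γ := Γ) (M := M) hs
    have hll : l' = l := by
      obtain ⟨x, hx⟩ := exists_ne (0 : M)
      have : Fact l.Prime := ⟨hl⟩
      have : Fact l'.Prime := ⟨hl'⟩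
      rw [← addOrderOf_eq_prime (hlM' x) hx, ← addOrderOf_eq_prime (hlM x) hx]
    have hdvd : l ∣ Nat.card M := by
      rw [hk, hll]; exact dvd_pow_self l hk0
    obtain ⟨m, hm0, hm⟩ := exists_fixed_of_pow hl hdvd R (by
      rintro t ⟨-, ht⟩ m
      rw [hrl, ← map_pow, hπ1, hK] at ht
      exact ht m)
    exact hm0 (hfix m hm)
  have hcard : K.relIndex R = Nat.card (R.map π) := by
    have h2 : K = π.ker := (QuotientGroup.ker_mk' K).symm
    conv_lhs => rw [h2]
    rw [Subgroup.relIndex_ker]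
  have hp : IsPGroup r (R.map π) := by
    rintro ⟨q, t, ⟨-, ht⟩, rfl⟩
    refine ⟨1, ?_⟩
    apply Subtype.ext
    show (π t) ^ (r ^ 1) = 1
    rw [pow_one, ht]
  have : Fact r.Prime := ⟨hr⟩
  obtain ⟨i, hi⟩ := IsPGroup.iff_card.mp hp
  refine ⟨R, hRn, hKR, ?_, ?_, hfix⟩
  · rw [hcard, hi]
    exact Nat.Coprime.pow_left _ ((Nat.coprime_primes hr hl).mpr hrl)
  · rw [hcard, hi]
    exact pow_ne_zero _ hr.ne_zero

/-- a derivation vanishing on `K` with vanishing sum over `R/K` is zero -/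
theorem der_eq_zero {l : ℕ} (hlM : ∀ m : M, l • m = 0) (K R : Subgroup Γ)
    [hKn : K.Normal] [hRn : R.Normal] [Fintype (R ⧸ K.subgroupOf R)]
    (hco : Nat.Coprime (K.relIndex R) l) (hfix : ∀ m : M, (∀ r ∈ R, r • m = m) → m = 0)
    (ε : Γ → M) (hε : IsDer ε) (hεK : ∀ k ∈ K, ε k = 0)
    (hsum : ∑ x : R ⧸ K.subgroupOf R, ε ((x.out : R) : Γ) = 0) : ∀ g, ε g = 0 := by
  have hR : ∀ y ∈ R, ε y = 0 := by
    intro y hy
    have h1 : ∀ x : R ⧸ K.subgroupOf R,
        ε (y * ((x.out : R) : Γ)) =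
          ε (((((⟨y, hy⟩ : R) : R ⧸ K.subgroupOf R) * x).out : R) : Γ) := by
      intro x
      set z : R := (((⟨y, hy⟩ : R) : R ⧸ K.subgroupOf R) * x).out with hz
      have h2 : z⁻¹ * (⟨y, hy⟩ * x.out) ∈ K.subgroupOf R := by
        rw [← QuotientGroup.eq, hz, QuotientGroup.out_eq', QuotientGroup.mk_mul,
          QuotientGroup.out_eq']
      have h3 : (z : Γ)⁻¹ * (y * ((x.out : R) : Γ)) ∈ K := h2
      have h4 : y * ((x.out : R) : Γ) = z * ((z : Γ)⁻¹ * (y * ((x.out : R) : Γ))) := by group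
      rw [h4, hε, hεK _ h3, smul_zero, add_zero]
    have h2 : ∑ x : R ⧸ K.subgroupOf R, ε (y * ((x.out : R) : Γ)) = 0 := by
      rw [Finset.sum_congr rfl fun x _ => h1 x]
      rw [← hsum]
      exact Equiv.sum_comp (Equiv.mulLeft ((⟨y, hy⟩ : R) : R ⧸ K.subgroupOf R))
        (fun x => ε ((x.out : R) : Γ))
    have h3 : ∑ x : R ⧸ K.subgroupOf R, ε (y * ((x.out : R) : Γ)) =
        (K.relIndex R) • ε y := by
      have : ∀ x : R ⧸ K.subgroupOf R, ε (y * ((x.out : R) : Γ)) =
          ε y + y • ε ((x.out : R) : Γ) := fun x => hε _ _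
      rw [Finset.sum_congr rfl fun x _ => this x, Finset.sum_add_distrib, ← Finset.smul_sum,
        hsum, smul_zero, add_zero, Finset.sum_const, Finset.card_univ, ← Nat.card_eq_fintype_card]
      rfl
    rw [h2] at h3
    have h4 := hlM (ε y)
    have h5 : addOrderOf (ε y) ∣ Nat.gcd (K.relIndex R) l :=
      Nat.dvd_gcd (addOrderOf_dvd_of_nsmul_eq_zero h3.symm) (addOrderOf_dvd_of_nsmul_eq_zero h4)
    rw [hco, Nat.dvd_one, AddMonoid.addOrderOf_eq_one_iff] at h5
    exact h5
  intro g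
  apply hfix
  intro y hy
  have h1 : ε (y * g) = y • ε g := by rw [hε, hR y hy, zero_add]
  have h2 : g⁻¹ * y * g ∈ R := by
    have := hRn.conj_mem y hy g⁻¹
    rwa [inv_inv] at this
  have h3 : ε (y * g) = ε g := by
    have : y * g = g * (g⁻¹ * y * g) := by group
    rw [this, hε, hR _ h2, smul_zero, add_zero]
  rw [← h1, h3]

theorem der_bound [Finite M] {l : ℕ} (hlM : ∀ m : M, l • m = 0) (K R : Subgroup Γ)
    [hKn : K.Normal] [hRn : R.Normal] (hKtriv : ∀ k ∈ K, ∀ m : M, k • m = m)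
    (hco : Nat.Coprime (K.relIndex R) l) (hne : K.relIndex R ≠ 0)
    (hfix : ∀ m : M, (∀ r ∈ R, r • m = m) → m = 0) (S : Set Γ) [Finite (EqHom K M S)] :
    Finite (DerSet Γ M S) ∧
      Nat.card (DerSet Γ M S) ≤ Nat.card M * Nat.card (EqHom K M S) := by
  classical
  have hfi : (K.subgroupOf R).FiniteIndex := ⟨hne⟩
  have hft : Fintype (R ⧸ K.subgroupOf R) := Fintype.ofFinite _
  let F : DerSet Γ M S → M × EqHom K M S := fun d =>
    ⟨∑ x : R ⧸ K.subgroupOf R, d.1 ((x.out : R) : Γ),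
      ⟨{ toFun := fun k => Multiplicative.ofAdd (d.1 (k : Γ))
         map_one' := by rw [OneMemClass.coe_one, IsDer.one d.2.1, ofAdd_zero]
         map_mul' := fun a b => by
          rw [Subgroup.coe_mul, d.2.1, hKtriv _ a.2, ofAdd_add] },
        fun g k h => by
          show Multiplicative.ofAdd (d.1 (g * k * g⁻¹)) = Multiplicative.ofAdd (g • d.1 (k : Γ))
          rw [IsDer.conj d.2.1, hKtriv _ h]
          congr 1; abel,
        fun k hk => by
          show Multiplicative.ofAdd (d.1 (k : Γ)) = 1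
          rw [d.2.2 _ hk, ofAdd_zero]⟩⟩
  have hF : Function.Injective F := by
    intro d d' h
    have h1 : ∑ x : R ⧸ K.subgroupOf R, d.1 ((x.out : R) : Γ) =
        ∑ x : R ⧸ K.subgroupOf R, d'.1 ((x.out : R) : Γ) := congrArg Prod.fst h
    have h2 : (F d).2.1 = (F d').2.1 := by rw [h]
    have h3 : ∀ k ∈ K, d.1 k = d'.1 k := by
      intro k hk
      have := DFunLike.congr_fun h2 ⟨k, hk⟩
      exact Multiplicative.ofAdd.injective this
    have h4 := der_eq_zero hlM K R hco hfix (fun g => d.1 g - d'.1 g) (d.2.1.sub d'.2.1)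
      (fun k hk => by rw [h3 k hk, sub_self])
      (by rw [Finset.sum_sub_distrib, h1, sub_self])
    apply Subtype.ext
    funext g
    exact sub_eq_zero.mp (h4 g)
  refine ⟨Finite.of_injective F hF, ?_⟩
  rw [← Nat.card_prod]
  exact Nat.card_le_card_of_injective F hF

end HOne

section Final

variable {Γ : Type} [Group Γ]

theorem modBound [Group.IsSolvable Γ] : ModBound Γ := by
  intro M _ _ _ hM l hl hlM K hK hKtop S hfin
  classical
  have hnt : Nontrivial M := hM.1
  have hKker : K = (MulAction.toPermHom Γ M).ker := by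
    ext g
    rw [hK, MonoidHom.mem_ker]
    constructor
    · intro h; ext m; exact h m
    · intro h m
      exact DFunLike.congr_fun h m
  have hKn : K.Normal := by rw [hKker]; infer_instance
  have hKi : K.index ≠ 0 := by
    rw [hKker, Subgroup.index_ker]
    exact Nat.card_pos.ne'
  obtain ⟨R, hRn, hKR, hco, hne, hfix⟩ := exists_R hM.2 hl hlM K hK hKtop hKi
  obtain ⟨hfinE, n, hn1, hn2⟩ := eqHom_bound hM.2 hl hlM K S
  obtain ⟨h1, h2⟩ := der_bound hlM K R (fun k hk => (hK k).mp hk) hco hne hfix S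
  refine ⟨h1, Nat.card (EqHom K M S), h2, ?_, ?_⟩
  · exact hn1.trans ((Nat.pow_le_pow_left (card_endG_le hM.2) n).trans hn2)
  · intro hdvd
    have hfi : K.FiniteIndex := ⟨hKi⟩
    have : Fact l.Prime := ⟨hl⟩
    rw [Subgroup.index_eq_card] at hdvd
    obtain ⟨q, hq⟩ := exists_prime_orderOf_dvd_card' (G := Γ ⧸ K) l hdvd
    obtain ⟨g, rfl⟩ := QuotientGroup.mk'_surjective K q
    have hgl : g ^ l ∈ K := by
      rw [← QuotientGroup.eq_one_iff]
      have := pow_orderOf_eq_one (QuotientGroup.mk' K g)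
      rw [hq] at this
      exact this
    have hg : g ∉ K := by
      intro h
      have h3 : QuotientGroup.mk' K g = 1 := (QuotientGroup.eq_one_iff g).mpr h
      rw [h3, orderOf_one] at hq
      exact hl.one_lt.ne hq
    obtain ⟨h5, h6⟩ := card_endG_sq (Γ := Γ) hM.2 hl hlM g (by
      by_contra hno
      push Not at hno
      exact hg ((hK g).mpr hno)) ((hK _).mp hgl)
    refine ⟨?_, h6⟩
    calc (Nat.card (EqHom K M S)) ^ 2 ≤ (Nat.card (EndG Γ M) ^ n) ^ 2 :=
          Nat.pow_le_pow_left hn1 2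
      _ = (Nat.card (EndG Γ M) ^ 2) ^ n := by rw [← pow_mul, ← pow_mul, mul_comm]
      _ ≤ Nat.card M ^ n := Nat.pow_le_pow_left h5 n
      _ ≤ _ := hn2

end Final

end Pool.MP_b7b920_al.H19

namespace Pool.MP_b7b920_al.CT

open Module Pool.MP_b7b920_al.H19

variable {Γ L : Type} [Group Γ] [Group.IsSolvable Γ] [AddCommGroup L] [Module.Free ℤ L]
  [Module.Finite ℤ L] [DistribMulAction Γ L] (ι : Multiplicative L →* Γ)

/-- Step 3: the local counts. `X` = preimage of a Sylow `p`-subgroup of the point group. -/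
theorem step3_count (hC : Cryst Γ L ι) (hLD : LDHyp Γ L ι) (p : ℕ) [Fact p.Prime]
    (X : Subgroup Γ) (hTX : ι.range ≤ X)
    (hX : ∃ k, ι.range.relIndex X = p ^ k) (hX' : ¬ p ∣ X.index) (hs : 2 ≤ finrank ℤ L)
    (E : Subgroup Γ) [Finite E] (hEX : E ≤ X)
    (hfin : Finite (X →* Multiplicative (ZMod p)))
    (hE : Nat.card {f : X →* Multiplicative (ZMod p) // ∀ e : X, (e : Γ) ∈ E → f e = 1} ≤
        (if p = 2 then p ^ finrank ℤ L else p ^ (finrank ℤ L - 1)))
    (M : Type) [AddCommGroup M] [Finite M] [DistribMulAction Γ M] (hM : Simple Γ M)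
    (hT : ∀ (v : L) (m : M), ι (Multiplicative.ofAdd v) • m = m) :
    Finite (DerSet Γ M ((E : Set Γ) ∪ mulSet ι p)) ∧
      Nat.card (DerSet Γ M ((E : Set Γ) ∪ mulSet ι p)) ≤ Nat.card M ^ finrank ℤ L :=
  step3_count_of ι modBound hC hLD p X hTX hX hX' hs E hEX hfin hE M hM hT

end Pool.MP_b7b920_al.CT
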